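import Pool.Agent.H.MP_374efc_lc.Pn.Tu2b

/-!
# MP_374efc_lc, P1: letters in the stable submonoid have images which are products of tokens

Paper proof: /team-store/h22_374efc_P1.md
-/

set_option autoImplicit false

namespace D0L.TN

variable {α P T : Type} [Fintype P] [Nonempty α] [Fintype T] (S : TN α P T)

/-- Proof.  `GG [a]` gives `e` over `a` equivalent to a token start `s` and to a token end `t`.  `Ar s t` (`Eqn.trans`, `Eqn.ar`): for all large `k` a switch `SwAt k s t v v'`.
`it hh k [s]` starts with a token start (`st_it`), `it hh k [t]` ends with a token end (`en_it`): `h^k(a)` = product of tokens (from `0` to `v`, `seg_get`), the switch, product of tokens (from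
`v'` to the end, `seg_end`). -/
theorem letter_W [Fintype α] {a : α} (h1 : S.GG [a]) :
    ∃ K, ∀ k, K ≤ k → ∃ z, it S.h k [a] = S.W z := by
  obtain ⟨E, hE, hst, hen, -⟩ := h1
  obtain ⟨e, rfl⟩ : ∃ e, E = [e] := by
    rcases E with _ | ⟨e, _ | ⟨f, E⟩⟩
    · simp at hE
    · exact ⟨e, rfl⟩
    · simp at hE
  have ha : S.pr e = a := by simpa using hE
  obtain ⟨s, hs, hes⟩ := hst e rfl
  obtain ⟨t, ht, het⟩ := hen e rfl
  have hps : S.pr s = a := hes.1.trans ha
  have hpt : S.pr t = a := het.1.trans ha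
  have hAr : S.Ar s t := Eqn.ar S (Eqn.trans S (Eqn.symm S hes) het)
  obtain ⟨K, hK⟩ := Ar.level S hAr
  refine ⟨K, fun k hk => ?_⟩
  obtain ⟨v, v', hvv, ⟨x, hx, hxs⟩, ⟨y, hy, hys⟩, z2, hz2⟩ := hK k hk
  rw [hps] at hz2
  obtain ⟨y0, V0, hy0, hy0s⟩ := st_it S hs k
  have h0 : (it S.hh k [s])[0]? = some y0 := by
    rw [hy0]
    rfl
  obtain ⟨z1, hz1⟩ := seg_get S (tile_it S k s) h0 hx hy0s hxs (Nat.zero_le v)
  rw [List.drop_zero, Nat.sub_zero] at hz1
  have m1 : (it S.hh k [s]).map S.pr = it S.h k [a] := by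
    rw [map_it, List.map_singleton, hps]
  have m2 : (it S.hh k [t]).map S.pr = it S.h k [a] := by
    rw [map_it, List.map_singleton, hpt]
  have g1 : (it S.h k [a]).take v = S.W z1 := by
    rw [← m1, ← List.map_take, hz1]
    rfl
  obtain ⟨V, ye, hV, hye⟩ := en_it S ht k
  obtain ⟨z3, hz3⟩ := seg_end S (tile_it S k t) hV hye hy hys
  have g3 : (it S.h k [a]).drop v' = S.W z3 := by
    rw [← m2, ← List.map_drop, hz3]
    rfl
  refine ⟨z1 ++ (z2 ++ z3), ?_⟩
  have h4 : S.W (z1 ++ (z2 ++ z3)) = S.W z1 ++ (S.W z2 ++ S.W z3) := by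
    unfold W
    rw [app_append, app_append, List.map_append, List.map_append]
  have h5 : (it S.h k [a]).drop v' = ((it S.h k [a]).drop v).drop (v' - v) := by
    rw [List.drop_drop]
    congr 1
    omega
  rw [h4, ← g1, ← hz2, ← g3, h5, List.take_append_drop, List.take_append_drop]

end D0L.TN
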