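import Pool.Agent.H.MP_374efc_lc.Pn.Gs1b
import Pool.Agent.H.MP_374efc_lc.Pn.Gs2
import Pool.Agent.H.MP_374efc_lc.Asm.Gap
import Pool.Agent.H.MP_374efc_lc.Bim.Setup

/-!
# MP_374efc_lc, P1: the images of all letters under some power of the morphism are products of words of the system

The token system of a normal form (tokens `w_0, .., w_(N-1)`), and the conclusion.
Paper proof: /team-store/h22_374efc_P1.md
-/

set_option autoImplicit false

namespace D0L

/-- Token system of a finite family of words which is mapped into itself (no code). -/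
theorem exists_TN {α : Type} {h : α → List α} (hne : ∀ a, h a ≠ [])
    (hgrow : ∀ B, ∃ K, ∀ k, K ≤ k → ∀ a, B ≤ (it h k [a]).length) {n : ℕ} (t : Fin n → List α)
    (T : Fin n → List (Fin n)) (comm : ∀ i, app h (t i) = app t (T i)) (htne : ∀ i, t i ≠ [])
    (sur : ∀ a, ∃ i, a ∈ t i) (irr : ∀ i j, ∃ q, j ∈ it T q [i]) :
    ∃ (P : Type) (_ : Fintype P) (S : TN α P (Fin n)), S.h = h ∧
      ∀ z, S.W z = app t z := by
  refine ⟨Σ i : Fin n, Fin (t i).length, inferInstance,
    { h := h
      pr := in2_pr t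
      hh := in2_hh h t T
      tk := in2_tk t
      H := T
      pr_hh := in2_pr_hh comm
      hh_tk := in2_hh_tk comm
      ne := hne
      grow := hgrow
      sur := ?_
      cov := ?_
      uniq := ?_
      tkne := ?_
      irr := irr }, rfl, fun z => in2_app_pr t z⟩
  · intro a
    obtain ⟨j, h3⟩ := sur a
    obtain ⟨p, hp, h4⟩ := List.mem_iff_getElem.1 h3
    exact ⟨⟨j, ⟨p, hp⟩⟩, h4⟩
  · intro e
    refine ⟨e.1, ?_⟩
    unfold in2_tk
    rw [List.mem_ofFn]
    exact ⟨e.2, rfl⟩
  · intro e i u v i' u' v' h1 h2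
    have h3 : e.1 = i := in2_mem (by rw [h1]; simp)
    have h4 : e.1 = i' := in2_mem (by rw [h2]; simp)
    have h5 := in2_pos h1
    have h6 := in2_pos h2
    have h7 : i = i' := h3.symm.trans h4
    rw [← h7, h1] at h2
    obtain ⟨h8, h9⟩ := List.append_inj h2 (h5.trans h6.symm)
    refine ⟨h7, h8, ?_⟩
    simpa using h9
  · intro i h1
    apply htne i
    rw [← in2_tk_pr t i, h1]
    rfl

/-- All letters of a finite alphabet grow uniformly. -/
theorem grow_unif {n : ℕ} {H : Fin n → List (Fin n)} (hne : ∀ a, H a ≠ [])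
    (hgr : ∀ a, Gr H a) (B : ℕ) : ∃ K, ∀ k, K ≤ k → ∀ a, B ≤ (it H k [a]).length := by
  have h1 : ∀ a, ∃ m, B ≤ (it H m [a]).length := fun a => hgr a B
  choose g hg using h1
  refine ⟨∑ a, g a, fun k hk a => ?_⟩
  have h2 : g a ≤ ∑ a, g a := Finset.single_le_sum (fun _ _ => Nat.zero_le _) (Finset.mem_univ a)
  exact (hg a).trans (length_it_mono hne [a] (h2.trans hk))

/-- **(P1)** In a normal form the images of all letters under a power of the morphism are products of
words of the system. -/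
theorem p1 : P1st := by
  intro n N H b0 hnf
  classical
  have hne : ∀ a, H a ≠ [] := fun a => ne_of_inj hnf.inj a
  obtain ⟨js, hj0, hjN, hrel⟩ := Bim.rel_zero hnf
  have hn0 : 0 < n := Bim.pos_n hnf
  have hN : 0 < N := lt_of_lt_of_le hn0 hnf.le
  obtain ⟨M, rfl⟩ : ∃ M, N = M + 1 := ⟨N - 1, by omega⟩
  have : Nonempty (Fin n) := ⟨⟨0, hn0⟩⟩
  -- the tokens
  let t : Fin (M + 1) → List (Fin n) := fun i => it H i b0
  let T : Fin (M + 1) → List (Fin (M + 1)) := fun i =>
    if h : (i : ℕ) + 1 < M + 1 then [⟨i + 1, h⟩] else js.map (Fin.ofNat (M + 1))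
  have hofNat : ∀ j ∈ js, ((Fin.ofNat (M + 1) j : Fin (M + 1)) : ℕ) = j := by
    intro j hj
    simp only [Fin.ofNat, Nat.mod_eq_of_lt (hjN j hj)]
  have comm : ∀ i, app H (t i) = app t (T i) := by
    intro i
    change app H (it H i b0) = app t (T i)
    rw [← it_succ]
    by_cases hi : (i : ℕ) + 1 < M + 1
    · have : T i = [⟨i + 1, hi⟩] := dif_pos hi
      rw [this, app_singleton]
    · have h1 : T i = js.map (Fin.ofNat (M + 1)) := dif_neg hi
      have h2 : (i : ℕ) + 1 = M + 1 := by
        have := i.2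
        omega
      rw [h1, h2, hrel, app, List.flatMap_def, List.map_map]
      congr 1
      apply List.map_congr_left
      intro j hj
      change it H j b0 = it H ((Fin.ofNat (M + 1) j : Fin (M + 1)) : ℕ) b0
      rw [hofNat j hj]
  have hTm : ∀ i : Fin (M + 1), T i ≠ [] := by
    intro i
    by_cases hi : (i : ℕ) + 1 < M + 1
    · have : T i = [⟨i + 1, hi⟩] := dif_pos hi
      rw [this]
      simp
    · have h1 : T i = js.map (Fin.ofNat (M + 1)) := dif_neg hi
      rw [h1]
      intro h2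
      rw [List.map_eq_nil_iff] at h2
      rw [h2] at hj0
      simp at hj0
  -- paths
  have hstep : ∀ (d : ℕ) (i : ℕ) (hid : i + d < M + 1),
      it T d [⟨i, by omega⟩] = [⟨i + d, hid⟩] := by
    intro d
    induction d with
    | zero =>
      intro i hid
      rfl
    | succ d ih =>
      intro i hid
      rw [it_succ, ih i (by omega), app_singleton]
      exact dif_pos (show i + d + 1 < M + 1 by omega)
  have h0 : ∀ i : Fin (M + 1), ∃ q, (⟨0, by omega⟩ : Fin (M + 1)) ∈ it T q [i] := by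
    intro i
    obtain ⟨d, hd⟩ : ∃ d, (i : ℕ) + d = M := ⟨M - i, by have := i.2; omega⟩
    refine ⟨d + 1, ?_⟩
    have h1 := hstep d i (by omega)
    rw [it_succ]
    have h2 : it T d [i] = [⟨M, by omega⟩] := by
      have h3 : (⟨(i : ℕ) + d, by omega⟩ : Fin (M + 1)) = ⟨M, by omega⟩ := Fin.ext hd
      rw [← h3]
      exact h1
    rw [h2, app_singleton]
    have h4 : T ⟨M, by omega⟩ = js.map (Fin.ofNat (M + 1)) := dif_neg (by simp)
    rw [h4, List.mem_map]
    exact ⟨0, hj0, by ext; simp⟩
  have irr : ∀ i j : Fin (M + 1), ∃ q, j ∈ it T q [i] := by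
    intro i j
    obtain ⟨q, hq⟩ := h0 i
    refine ⟨j + q, ?_⟩
    rw [it_add]
    obtain ⟨u, v, huv⟩ := List.append_of_mem hq
    rw [huv, it_append]
    have h1 : (⟨0, by omega⟩ : Fin (M + 1)) :: v = [⟨0, by omega⟩] ++ v := rfl
    rw [h1, it_append]
    have h2 := hstep j 0 (by have := j.2; omega)
    have h3 : (⟨0 + (j : ℕ), by have := j.2; omega⟩ : Fin (M + 1)) = j := Fin.ext (Nat.zero_add _)
    rw [h3] at h2
    rw [h2]
    simp
  have htne : ∀ i, t i ≠ [] := by
    intro i hi
    have h1 := length_it_mono hne b0 (Nat.zero_le (i : ℕ))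
    rw [it_zero] at h1
    have h2 : it H i b0 = [] := hi
    rw [h2] at h1
    exact hnf.ne (List.length_eq_zero_iff.1 (Nat.le_zero.1 h1))
  have sur : ∀ a, ∃ i, a ∈ t i := by
    intro a
    obtain ⟨i, s, hs⟩ := Bim.exists_first hnf a
    refine ⟨⟨i, lt_of_lt_of_le i.2 hnf.le⟩, ?_⟩
    change a ∈ it H i b0
    rw [hs]
    simp
  obtain ⟨P, hP, S, hSh, hSW⟩ := exists_TN hne (grow_unif hne hnf.gr) t T comm htne sur irr
  have hall : ∀ x, S.GG x := by
    refine hnf.hull S.GG (TN.GG.nil S) (fun x y hx hy => TN.GG.mul S hx hy)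
      (fun x y z hx _ hxz hzy => TN.GG.stable S hx hxz hzy) ?_
    intro i hi
    have h1 := TN.GG.tk S [⟨i, hi⟩]
    rw [hSW, app_singleton] at h1
    exact h1
  have hlet : ∀ a : Fin n, ∃ K, ∀ k, K ≤ k → TkM H b0 (it H k [a]) := by
    intro a
    obtain ⟨K, hK⟩ := TN.letter_W S (hall [a])
    refine ⟨K, fun k hk => ?_⟩
    obtain ⟨z, hz⟩ := hK k hk
    rw [hSh] at hz
    refine ⟨z.map Fin.val, ?_⟩
    rw [hz, hSW, app, List.flatMap_def, List.map_map]
    rfl
  choose g hg using hlet
  refine ⟨∑ a, g a, fun a => hg a _ ?_⟩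
  exact Finset.single_le_sum (fun _ _ => Nat.zero_le _) (Finset.mem_univ a)

/-- Stationarity of the stages from a computable level on gives a computable bound. -/
theorem bound_of_sb' {G : ℕ → ℕ} (hG : Computable G) (hb : SB G) :
    ∃ F', Computable F' ∧ Bound F' := bound_of_sb p1 hG hb

/-- A computable bound of the lengths of new primes gives a computable bound. -/
theorem bound_of_pb' {C : ℕ → ℕ} (hC : Computable C) (hb : PB C) :
    ∃ F', Computable F' ∧ Bound F' := bound_of_pb p1 hC hb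

end D0L
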