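import Pool.Agent.H.MP_374efc_lc.Pn.Df

/-!
# MP_374efc_lc, P1: composition of switches

Paper proof: /team-store/h22_374efc_P1.md
-/

set_option autoImplicit false

namespace D0L.TN

variable {α P T : Type} (S : TN α P T)

/-- Level `+ 1`.  Proof: apply `h`, `hh`; `v` becomes `the length of the image of the first v letters`, see `ts1_step`, `ts1_W` (Bs2). -/
theorem SwAt.succ {k : ℕ} {e f : P} {v v' : ℕ} (hf : S.pr f = S.pr e) (hs : S.SwAt k e f v v') :
    ∃ u u', S.SwAt (k + 1) e f u u' := by
  obtain ⟨hle, ⟨x, hx, hsx⟩, ⟨y, hy, hsy⟩, z, hz⟩ := hs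
  set w : List α := it S.h k [S.pr e] with hw
  have hv : v < w.length := by
    have h1 := (List.getElem?_eq_some_iff.1 hx).1
    rw [S.tt1_len] at h1
    exact h1
  have hv' : v' < w.length := by
    have h1 := (List.getElem?_eq_some_iff.1 hy).1
    rw [S.tt1_len, hf] at h1
    exact h1
  have hl : (w.take v).length = v := by rw [List.length_take]; omega
  have hl' : (w.take v').length = v' := by rw [List.length_take]; omega
  obtain ⟨x', hx', hsx'⟩ := S.ts1_step (k := k) (e := e) (x := x) (X := w.take v) (R := w.drop v)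
    (by rw [List.take_append_drop]) (by rw [hl]; exact hx) hsx
  obtain ⟨y', hy', hsy'⟩ := S.ts1_step (k := k) (e := f) (x := y) (X := w.take v')
    (R := w.drop v') (by rw [List.take_append_drop, hf]) (by rw [hl']; exact hy) hsy
  have h1 : w.take v' = w.take v ++ S.W z := by
    rw [← hz]
    have h2 : v' = v + (v' - v) := by omega
    conv_lhs => rw [h2]
    rw [List.take_add]
  refine ⟨(app S.h (w.take v)).length, (app S.h (w.take v')).length, ?_, ⟨x', hx', hsx'⟩,
    ⟨y', hy', hsy'⟩, app S.H z, ?_⟩
  · rw [h1, app_append, List.length_append]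
    omega
  · have h3 : it S.h (k + 1) [S.pr e] = app S.h (w.take v) ++ (S.W (app S.H z) ++
        app S.h (w.drop v')) := by
      rw [it_succ, ← hw]
      conv_lhs => rw [← List.take_append_drop v' w]
      rw [app_append, h1, app_append, S.ts1_W, List.append_assoc]
    rw [h3, List.drop_left, h1, app_append, List.length_append, S.ts1_W, Nat.add_sub_cancel_left,
      List.take_left]

theorem ar1a_mono {k : ℕ} {e f : P} {v v' : ℕ} (hf : S.pr f = S.pr e) (hs : S.SwAt k e f v v')
    (m : ℕ) : ∃ u u', S.SwAt (k + m) e f u u' := by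
  induction m with
  | zero => exact ⟨v, v', hs⟩
  | succ m ih =>
    obtain ⟨u, u', h1⟩ := ih
    exact SwAt.succ S hf h1

/-- Switches exist at all higher levels. -/
theorem Ar.level {e f : P} (h1 : S.Ar e f) : ∃ K, ∀ k, K ≤ k → ∃ v v', S.SwAt k e f v v' := by
  obtain ⟨hf, k, v, v', hs⟩ := h1
  refine ⟨k, fun k' hk => ?_⟩
  obtain ⟨m, rfl⟩ := Nat.exists_eq_add_of_le hk
  exact S.ar1a_mono hf hs m

end D0L.TN
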