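import Pool.Agent.H.MP_374efc_lc.Pn.Ar1a

/-!
# MP_374efc_lc, P1: composition of switches

Paper proof: /team-store/h22_374efc_P1.md
-/

set_option autoImplicit false

namespace D0L.TN

variable {α P T : Type} (S : TN α P T)

theorem ar1b_split {β : Type} (L : List β) {a b c : ℕ} (h1 : a ≤ b) (h2 : b ≤ c) :
    (L.drop a).take (c - a) = (L.drop a).take (b - a) ++ (L.drop b).take (c - b) := by
  have e1 : c - a = (b - a) + (c - b) := by omega
  rw [e1, List.take_add, List.drop_drop]
  congr 3
  omega

theorem ar1b_block {β : Type} (h : β → List β) {w : List β} {J l v v' : ℕ} {b : β}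
    (hb : w[J]? = some b) (hv : v ≤ v') (hv' : v' < (it h l [b]).length) :
    ((it h l w).drop ((it h l (w.take J)).length + v)).take
      ((it h l (w.take J)).length + v' - ((it h l (w.take J)).length + v)) =
      ((it h l [b]).drop v).take (v' - v) := by
  obtain ⟨hlt, hget⟩ := List.getElem?_eq_some_iff.1 hb
  have hx : w.take J ++ ([b] ++ w.drop (J + 1)) = w := by
    rw [← hget, List.singleton_append, ← List.drop_eq_getElem_cons hlt, List.take_append_drop]
  have e1 : it h l w = it h l (w.take J) ++ (it h l [b] ++ it h l (w.drop (J + 1))) := by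
    rw [← it_append, ← it_append, hx]
  have e2 : (it h l (w.take J)).length + v' - ((it h l (w.take J)).length + v) = v' - v := by
    omega
  rw [e2, e1]
  rw [List.drop_append]
  have e3 : (it h l (w.take J)).drop ((it h l (w.take J)).length + v) = [] :=
    List.drop_eq_nil_of_le (by omega)
  have e4 : (it h l (w.take J)).length + v - (it h l (w.take J)).length = v := by omega
  rw [e3, e4, List.nil_append, List.drop_append_of_le_length (by omega),
    List.take_append_of_le_length (by rw [List.length_drop]; omega)]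

theorem ar1b_get {e x : P} {a b : α} (he : S.pr e = a) {k J l v : ℕ}
    (hx : (it S.hh k [e])[J]? = some x) (hb : (it S.h k [a])[J]? = some b)
    (hv : v < (it S.h l [b]).length) :
    (it S.hh (l + k) [e])[(it S.h l ((it S.h k [a]).take J)).length + v]? =
      (it S.hh l [x])[v]? := by
  have h1 : (it S.hh k [e]).map S.pr = it S.h k [a] := by
    rw [S.map_it, List.map_singleton, he]
  have h2 : S.pr x = b := by
    rw [← h1, List.getElem?_map, hx, Option.map_some] at hb
    exact Option.some.inj hb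
  have h3 : (it S.hh l ((it S.hh k [e]).take J)).length =
      (it S.h l ((it S.h k [a]).take J)).length := by
    rw [S.length_it, List.map_take, h1]
  rw [it_add, ← h3]
  refine it_get S.hh l hx ?_
  rw [S.length_it, List.map_singleton, h2]
  exact hv

/-- A switch in the block of the position `J`. -/
theorem SwAt.push {k J l : ℕ} {e f x y : P} {v v' : ℕ} (hf : S.pr f = S.pr e)
    (hx : (it S.hh k [e])[J]? = some x) (hy : (it S.hh k [f])[J]? = some y)
    (hs : S.SwAt l x y v v') (hv : v' < (it S.h l [S.pr x]).length) :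
    S.SwAt (l + k) e f ((it S.h l ((it S.h k [S.pr e]).take J)).length + v)
      ((it S.h l ((it S.h k [S.pr e]).take J)).length + v') := by
  obtain ⟨h1, ⟨x1, h2, h3⟩, ⟨y1, h4, h5⟩, z, h6⟩ := hs
  have hb : (it S.h k [S.pr e])[J]? = some (S.pr x) := by
    have h7 : it S.h k [S.pr e] = (it S.hh k [e]).map S.pr := by
      rw [S.map_it, List.map_singleton]
    rw [h7, List.getElem?_map, hx, Option.map_some]
  refine ⟨by omega, ⟨x1, ?_, h3⟩, ⟨y1, ?_, h5⟩, z, ?_⟩
  · rw [S.ar1b_get rfl hx hb (by omega)]
    exact h2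
  · rw [S.ar1b_get hf hy hb hv]
    exact h4
  · rw [it_add, ar1b_block S.h hb h1 hv]
    exact h6

/-- Composition: follow the tokens of `f` from `v1'` to `v2`.  Proof: `seg_get` for the tile word `it S.hh k [f]` (`tile_it`). -/
theorem SwAt.comp {k : ℕ} {e f g : P} {v1 v1' v2 v2' : ℕ} (hf : S.pr f = S.pr e)
    (h1 : S.SwAt k e f v1 v1') (h2 : S.SwAt k f g v2 v2') (hv : v1' ≤ v2) :
    S.SwAt k e g v1 v2' := by
  obtain ⟨a1, ha, ⟨y, b1, b2⟩, z1, c1⟩ := h1
  obtain ⟨a2, ⟨x, d1, d2⟩, hd, z3, c3⟩ := h2
  obtain ⟨z2, c2⟩ := S.seg_get (S.tile_it k f) b1 d1 b2 d2 hv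
  have c2' : ((it S.h k [S.pr e]).drop v1').take (v2 - v1') = S.W z2 := by
    have h7 : it S.h k [S.pr e] = (it S.hh k [f]).map S.pr := by
      rw [S.map_it, List.map_singleton, hf]
    rw [h7, ← List.map_drop, ← List.map_take, c2]
    rfl
  rw [hf] at c3
  refine ⟨by omega, ha, hd, z1 ++ (z2 ++ z3), ?_⟩
  rw [ar1b_split _ a1 (by omega), ar1b_split _ hv a2, c1, c2', c3]
  unfold W
  rw [app_append, app_append, List.map_append, List.map_append]

theorem SwAt.lt {k : ℕ} {e f : P} {v v' : ℕ} (hf : S.pr f = S.pr e) (hs : S.SwAt k e f v v') :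
    v' < (it S.h k [S.pr e]).length := by
  obtain ⟨_, _, ⟨y, b1, _⟩, _⟩ := hs
  obtain ⟨h1, _⟩ := List.getElem?_eq_some_iff.1 b1
  rw [S.length_it, List.map_singleton, hf] at h1
  exact h1

end D0L.TN
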