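import Pool.Agent.H.MP_374efc_lc.Pn.Ar1b

/-!
# MP_374efc_lc, P1: composition of switches

Paper proof: /team-store/h22_374efc_P1.md
-/

set_option autoImplicit false

namespace D0L.TN

variable {α P T : Type} (S : TN α P T)

/-- A block of an iterate ends before the image of every longer beginning. -/
theorem ar1c_block {w : List α} {J1 J2 l : ℕ} {b : α} (hb : w[J1]? = some b) (hJ : J1 < J2) :
    (it S.h l (w.take J1)).length + (it S.h l [b]).length ≤ (it S.h l (w.take J2)).length := by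
  obtain ⟨h1, h2⟩ := List.getElem?_eq_some_iff.1 hb
  have h3 : w.take (J1 + 1) = w.take J1 ++ [b] := by
    rw [List.take_succ_eq_append_getElem h1, h2]
  have h4 : w.take J2 = w.take (J1 + 1) ++ (w.take J2).drop (J1 + 1) := by
    conv_lhs => rw [← List.take_append_drop (J1 + 1) (w.take J2)]
    rw [List.take_take, Nat.min_eq_left (by omega)]
  rw [h4, h3, it_append, it_append, List.length_append, List.length_append]
  omega

/-- Proof: a long tile word `it S.hh k [e]` contains a token start (`long_st`, `grow`). -/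
theorem Ar.refl [Fintype T] (e : P) : S.Ar e e := by
  obtain ⟨L, hL⟩ := S.long_st
  obtain ⟨K, hK⟩ := S.grow L
  have h1 : L ≤ (it S.hh K [e]).length := by
    rw [S.tt1_len]
    exact hK K le_rfl _
  obtain ⟨A, x, B, h2, h3⟩ := hL _ (S.tile_it K e) h1
  have h4 : (it S.hh K [e])[A.length]? = some x := by
    rw [h2]
    simp
  refine ⟨rfl, K, A.length, A.length, le_rfl, ⟨x, h4, h3⟩, ⟨x, h4, h3⟩, [], ?_⟩
  rw [Nat.sub_self, List.take_zero]
  rfl

/-- Arrows between the images at one position give an arrow. -/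
theorem Ar.inner {e f x y : P} {k J : ℕ} (hf : S.pr f = S.pr e)
    (hx : (it S.hh k [e])[J]? = some x) (hy : (it S.hh k [f])[J]? = some y) (h1 : S.Ar x y) :
    S.Ar e f := by
  obtain ⟨h2, l, v, v', h3⟩ := h1
  exact ⟨hf, _, _, _, SwAt.push S hf hx hy h3 (SwAt.lt S h2 h3)⟩

/-- **Composition of arrows in two blocks.**  Proof: common level `l` for both arrows (`Ar.level`), push both to `l + k` (`SwAt.push`), the block of `J1`
is left of the block of `J2`, `SwAt.comp`. -/
theorem Ar.comp {e f g e1 f1 f2 g2 : P} {k J1 J2 : ℕ} (hf : S.pr f = S.pr e) (hg : S.pr g = S.pr e)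
    (hJ : J1 < J2) (he1 : (it S.hh k [e])[J1]? = some e1) (hf1 : (it S.hh k [f])[J1]? = some f1)
    (h1 : S.Ar e1 f1) (hf2 : (it S.hh k [f])[J2]? = some f2) (hg2 : (it S.hh k [g])[J2]? = some g2)
    (h2 : S.Ar f2 g2) : S.Ar e g := by
  have hgf : S.pr g = S.pr f := hg.trans hf.symm
  obtain ⟨K1, hK1⟩ := Ar.level S h1
  obtain ⟨K2, hK2⟩ := Ar.level S h2
  obtain ⟨v1, v1', s1⟩ := hK1 (max K1 K2) (le_max_left _ _)
  obtain ⟨v2, v2', s2⟩ := hK2 (max K1 K2) (le_max_right _ _)
  have t1 := SwAt.lt S h1.1 s1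
  have t2 := SwAt.lt S h2.1 s2
  have p1 := SwAt.push S hf he1 hf1 s1 t1
  have p2 := SwAt.push S hgf hf2 hg2 s2 t2
  rw [hf] at p2
  have hlt : J1 < (it S.h k [S.pr e]).length := by
    have h3 := (List.getElem?_eq_some_iff.1 he1).1
    rw [S.tt1_len] at h3
    exact h3
  have hb : (it S.h k [S.pr e])[J1]? = some (S.pr e1) := by
    have h3 := List.getElem?_eq_getElem hlt
    rw [h3, ← S.tt1_pr h3 he1]
  have hle := S.ar1c_block (l := max K1 K2) hb hJ
  exact ⟨hg, _, _, _, SwAt.comp S hf p1 p2 (by omega)⟩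

end D0L.TN
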