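import Pool.Agent.H.MP_374efc_lc.Pn.Ar1c

/-!
# MP_374efc_lc, P1: transport of arrows between minimal images

Paper proof: /team-store/h22_374efc_P1.md
-/

set_option autoImplicit false

namespace D0L.TN

variable {α P T : Type} [Fintype P] [Nonempty α] [Fintype T] (S : TN α P T)

omit [Fintype P] [Nonempty α] [Fintype T] in
/-- Composition of two positions. -/
theorem ar2a_comp {b b₁ : α} {k J l J₁ : ℕ} (hb : (it S.h k [b])[J]? = some b₁)
    (hJ : J₁ < (it S.h l [b₁]).length) :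
    ∃ J₂ : ℕ, (it S.h (l + k) [b])[J₂]? = (it S.h l [b₁])[J₁]? ∧
      ∀ x, S.pr x = b → ∃ y, (it S.hh k [x])[J]? = some y ∧ S.pr y = b₁ ∧
        (it S.hh (l + k) [x])[J₂]? = (it S.hh l [y])[J₁]? := by
  refine ⟨(it S.h l ((it S.h k [b]).take J)).length + J₁, ?_, ?_⟩
  · rw [it_add]
    exact it_get S.h l hb hJ
  · intro x hx
    exact S.tr1_val hb hJ hx

/-- Return with the identity.  Proof: `I = at(k0, J0)(fib a)` for some `a` (definition of `MI`); `a` occurs in `h^q(b')` (`reach_letter`), so the position `(k, J)`, then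
`(q, .)`, then `(k0, J0)` map `I` into `I`, injectively (`MI.push` three times, or injectivity of `RC` positions), hence this is a permutation `π` of `I`; `π ^ m = 1` with
`m = card (Perm I)`; after the first `(k, J)` go on with the rest of `π ^ m`. -/
theorem return_id {b : α} {I : Finset P} (hI : S.MI b I) {k J : ℕ} {b' : α}
    (hb : (it S.h k [b])[J]? = some b') : ∃ k' J', J' < (it S.h k' [b']).length ∧
      ∀ x ∈ I, ∀ y, (it S.hh k [x])[J]? = some y → (it S.hh k' [y])[J']? = some x := by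
  classical
  have hpr : ∀ x ∈ I, S.pr x = b := fun x hx => MI.pr_eq S hI hx
  have hI' := hI
  obtain ⟨a, k₀, J₀, hr, hb₀, h⟩ := hI'
  obtain ⟨q, hq⟩ := S.reach_letter b' a
  obtain ⟨j, hj⟩ := List.mem_iff_getElem?.1 hq
  -- the position from `b'` to `b`
  obtain ⟨JR, hR1, hR2⟩ := S.ar2a_comp hj hr.1
  rw [hb₀] at hR1
  have hR3 : ∀ y, S.pr y = b' → ∃ x' ∈ I, (it S.hh (k₀ + q) [y])[JR]? = some x' := by
    intro y hy
    obtain ⟨e, -, he2, he3⟩ := hR2 y hy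
    obtain ⟨x', hx'⟩ := S.tr2_some he2 hr.1
    exact ⟨x', (h x').2 ⟨e, he2, hx'⟩, by rw [he3, hx']⟩
  -- the position from `b` to `b`
  obtain ⟨JS, hS1, hS2⟩ := S.ar2a_comp hb (tr2_lt hR1)
  rw [hR1] at hS1
  have hS3 : ∀ x : I, ∃ x' : I, (it S.hh (k₀ + q + k) [x.1])[JS]? = some x'.1 := by
    intro x
    obtain ⟨y, -, hy2, hy3⟩ := hS2 x.1 (hpr x.1 x.2)
    obtain ⟨x', hx', hx''⟩ := hR3 y hy2
    exact ⟨⟨x', hx'⟩, by rw [hy3, hx'']⟩
  choose F hF using hS3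
  have hinj : Function.Injective F := by
    obtain ⟨I', -, -, -, h4⟩ := MI.push S hI hS1
    intro x y hxy
    apply Subtype.ext
    exact h4 x.1 x.2 y.1 y.2 (by rw [hF x, hF y, hxy])
  let σ : Equiv.Perm I := Equiv.ofBijective F (Finite.injective_iff_bijective.1 hinj)
  have hσ : ∀ x, σ x = F x := fun x => rfl
  have hit : ∀ m : ℕ, ∃ km Jm : ℕ, (it S.h km [b])[Jm]? = some b ∧
      ∀ x : I, (it S.hh km [x.1])[Jm]? = some ((σ ^ m) x).1 := by
    intro m
    induction m with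
    | zero =>
      refine ⟨0, 0, by simp [it_zero], ?_⟩
      intro x
      simp [it_zero]
    | succ m ih =>
      obtain ⟨km, Jm, h1, h2⟩ := ih
      obtain ⟨J', h3, h4⟩ := S.ar2a_comp hS1 (tr2_lt h1)
      refine ⟨km + (k₀ + q + k), J', by rw [h3, h1], ?_⟩
      intro x
      obtain ⟨y, hy1, -, hy3⟩ := h4 x.1 (hpr x.1 x.2)
      rw [hF x, Option.some.injEq] at hy1
      rw [hy3, ← hy1, h2 (F x), pow_succ, Equiv.Perm.mul_apply, hσ]
  obtain ⟨n, hn, hσn⟩ := isOfFinOrder_iff_pow_eq_one.1 (isOfFinOrder_of_finite σ)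
  obtain ⟨n, rfl⟩ : ∃ n', n = n' + 1 := ⟨n - 1, by omega⟩
  obtain ⟨km, Jm, h1, h2⟩ := hit n
  obtain ⟨J', h3, h4⟩ := S.ar2a_comp hR1 (tr2_lt h1)
  refine ⟨km + (k₀ + q), J', tr2_lt (b := b) (by rw [h3, h1]), ?_⟩
  intro x hx y hy
  have hpy : S.pr y = b' := S.tr2_pr (hpr x hx) hb hy
  obtain ⟨y', hy1, -, hy3⟩ := h4 y hpy
  obtain ⟨z, hz1, -, hz3⟩ := hS2 x (hpr x hx)
  rw [hy, Option.some.injEq] at hz1
  have h5 : y' = (F ⟨x, hx⟩).1 := by
    have h6 := hF ⟨x, hx⟩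
    rw [hz3, ← hz1, hy1, Option.some.injEq] at h6
    exact h6
  rw [hy3, h5, h2 (F ⟨x, hx⟩), ← hσ, ← Equiv.Perm.mul_apply, ← pow_succ, hσn]
  rfl

end D0L.TN
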