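import Pool.Agent.H.MP_374efc_lc.Pn.Ar2a

/-!
# MP_374efc_lc, P1: transport of arrows between minimal images

Paper proof: /team-store/h22_374efc_P1.md
-/

set_option autoImplicit false

namespace D0L.TN

variable {α P T : Type} [Fintype P] [Nonempty α] [Fintype T] (S : TN α P T)

/-- Arrows inside a minimal image are preserved.  Proof: `return_id` and `Ar.inner`. -/
theorem Ar.push {b : α} {I : Finset P} (hI : S.MI b I) {e f x y : P} (he : e ∈ I) (hf : f ∈ I)
    (h1 : S.Ar e f) {k J : ℕ} (hx : (it S.hh k [e])[J]? = some x)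
    (hy : (it S.hh k [f])[J]? = some y) : S.Ar x y := by
  have hpe : S.pr e = b := MI.pr_eq S hI he
  have hpf : S.pr f = b := MI.pr_eq S hI hf
  have hJ : J < (it S.h k [b]).length := by
    rw [← S.tr2_len hpe]
    exact (List.getElem?_eq_some_iff.1 hx).1
  have hb : (it S.h k [b])[J]? = some ((it S.h k [b])[J]) := List.getElem?_eq_getElem hJ
  obtain ⟨k', J', -, h2⟩ := S.return_id hI hb
  have hpx := S.tr2_pr hpe hb hx
  have hpy := S.tr2_pr hpf hb hy
  exact Ar.inner S (hpy.trans hpx.symm) (h2 e he x hx) (h2 f hf y hy) h1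

/-- Proof: `k` with `2 ≤ |h^k(b)|`, push the arrows to the positions `0` and `1`, `Ar.comp`. -/
theorem Ar.trans_mi {b : α} {I : Finset P} (hI : S.MI b I) {e f g : P} (he : e ∈ I) (hf : f ∈ I)
    (hg : g ∈ I) (h1 : S.Ar e f) (h2 : S.Ar f g) : S.Ar e g := by
  have hpe : S.pr e = b := MI.pr_eq S hI he
  have hpf : S.pr f = b := MI.pr_eq S hI hf
  have hpg : S.pr g = b := MI.pr_eq S hI hg
  obtain ⟨k, hk⟩ := S.grow 2
  have h3 : 2 ≤ (it S.h k [b]).length := hk k le_rfl b
  obtain ⟨e1, he1⟩ := S.tr2_some hpe (k := k) (J := 0) (by omega)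
  obtain ⟨f1, hf1⟩ := S.tr2_some hpf (k := k) (J := 0) (by omega)
  obtain ⟨f2, hf2⟩ := S.tr2_some hpf (k := k) (J := 1) (by omega)
  obtain ⟨g2, hg2⟩ := S.tr2_some hpg (k := k) (J := 1) (by omega)
  exact Ar.comp S (hpf.trans hpe.symm) (hpg.trans hpe.symm) Nat.zero_lt_one he1 hf1
    (Ar.push S hI he hf h1 he1 hf1) hf2 hg2 (Ar.push S hI hf hg h2 hf2 hg2)

end D0L.TN
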