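import Pool.Agent.H.MP_374efc_lc.Pn.Ar2b

/-!
# MP_374efc_lc, P1: arrows in minimal images are symmetric

Paper proof: /team-store/h22_374efc_P1.md
-/

set_option autoImplicit false

namespace D0L.TN

variable {α P T : Type} [Fintype P] [Nonempty α] [Fintype T] (S : TN α P T)

/-- Proof: `MI.exists`, `MI.nonempty`; choose `e0 ∈ I` with the smallest number of `f ∈ I` with `Ar e0 f`.  If `Ar e0 f` then `{g | Ar f g} ⊆ {g | Ar e0 g}`
(`Ar.trans_mi`), so they are equal and contain `e0` (`Ar.refl`). -/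
theorem exists_terminal : ∃ (a : α) (I : Finset P), S.MI a I ∧
    ∃ e0 ∈ I, ∀ f ∈ I, S.Ar e0 f → S.Ar f e0 := by
  classical
  obtain ⟨a⟩ := (inferInstance : Nonempty α)
  obtain ⟨I, hI⟩ := MI.exists S a
  refine ⟨a, I, hI, ?_⟩
  obtain ⟨e0, he0, hmin⟩ := Finset.exists_min_image I (fun e => (I.filter (fun g => S.Ar e g)).card)
    (MI.nonempty S hI)
  refine ⟨e0, he0, fun f hf h => ?_⟩
  have hsub : I.filter (fun g => S.Ar f g) ⊆ I.filter (fun g => S.Ar e0 g) := by
    intro g hg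
    rw [Finset.mem_filter] at hg ⊢
    exact ⟨hg.1, Ar.trans_mi S hI he0 hf hg.1 h hg.2⟩
  have heq := Finset.eq_of_subset_of_card_le hsub (hmin f hf)
  have h0 : e0 ∈ I.filter (fun g => S.Ar e0 g) := by
    rw [Finset.mem_filter]
    exact ⟨he0, Ar.refl S e0⟩
  rw [← heq, Finset.mem_filter] at h0
  exact h0.2

end D0L.TN
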