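import Pool.Agent.H.MP_374efc_lc.Pn.Ar3a

/-!
# MP_374efc_lc, P1: arrows in minimal images are symmetric

Paper proof: /team-store/h22_374efc_P1.md
-/

set_option autoImplicit false

namespace D0L.TN

variable {α P T : Type} [Fintype P] [Nonempty α] [Fintype T] (S : TN α P T)

/-- Every element is terminal in some minimal image.  Proof: `e` occurs in `hh^q(e0)` (`reach`) at a position `J`; push `I` (`MI.push`); for `f' ∈ I'`, `f' = at f`, `Ar e f'`
gives `Ar e0 f` (`Ar.inner`), `Ar f e0`, `Ar f' e` (`Ar.push`). -/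
theorem terminal_mi (e : P) : ∃ I : Finset P, S.MI (S.pr e) I ∧ e ∈ I ∧
    ∀ f ∈ I, S.Ar e f → S.Ar f e := by
  classical
  obtain ⟨a, I0, hI0, e0, he0, hterm⟩ := S.exists_terminal
  obtain ⟨q, hq⟩ := S.reach e0 e
  obtain ⟨j, hj⟩ := List.mem_iff_getElem?.1 hq
  have hpe0 : S.pr e0 = a := MI.pr_eq S hI0 he0
  have hb : (it S.h q [a])[j]? = some (S.pr e) := by
    have h1 : it S.h q [a] = (it S.hh q [e0]).map S.pr := by
      rw [S.map_it, List.map_cons, List.map_nil, hpe0]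
    rw [h1, List.getElem?_map, hj, Option.map_some]
  obtain ⟨I', hI', h2, h3, -⟩ := MI.push S hI0 hb
  obtain ⟨x', hx', hx''⟩ := h3 e0 he0
  rw [hj, Option.some.injEq] at hx''
  subst hx''
  refine ⟨I', hI', hx', fun f' hf' h4 => ?_⟩
  obtain ⟨f, hf, hff⟩ := h2 f' hf'
  have hpf : S.pr f = a := MI.pr_eq S hI0 hf
  have h5 : S.Ar e0 f := Ar.inner S (hpf.trans hpe0.symm) hj hff h4
  exact Ar.push S hI0 hf he0 (hterm f hf h5) hff hj

/-- **Symmetry.**  Proof: `I'` from `terminal_mi`; `(k, J)` a position of minimal rank of the letter `b` (`rc_level`); `f' ∈ I'` with the same image as `f` (`MI.select`).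
`Ar e f` ⟹ arrow of the images (`Ar.push` in `I`) ⟹ `Ar e f'` (`Ar.inner`) ⟹ `Ar f' e` ⟹ arrow of the images (`Ar.push` in `I'`) ⟹ `Ar f e` (`Ar.inner`). -/
theorem Ar.symm_mi [Fintype α] {b : α} {I : Finset P} (hI : S.MI b I) {e f : P} (he : e ∈ I)
    (hf : f ∈ I) (h1 : S.Ar e f) : S.Ar f e := by
  classical
  have hpe : S.pr e = b := MI.pr_eq S hI he
  have hpf : S.pr f = b := MI.pr_eq S hI hf
  obtain ⟨I', hI', heI', hterm⟩ := S.terminal_mi e
  obtain ⟨K, hK⟩ := S.rc_level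
  obtain ⟨J, hJ⟩ := hK (S.pr e)
  obtain ⟨f', hf', hff'⟩ := MI.select S hI' hJ (e := f) (hpf.trans hpe.symm)
  have hpf' : S.pr f' = S.pr e := MI.pr_eq S hI' hf'
  obtain ⟨x, hx⟩ := S.tr2_some (e := e) rfl hJ.1
  obtain ⟨y, hy⟩ := S.tr2_some (hpf.trans hpe.symm) hJ.1
  have hy' : (it S.hh K [f'])[J]? = some y := by rw [hff', hy]
  have h2 : S.Ar x y := Ar.push S hI he hf h1 hx hy
  have h3 : S.Ar e f' := Ar.inner S hpf' hx hy' h2
  have h4 : S.Ar f' e := hterm f' hf' h3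
  have h5 : S.Ar y x := Ar.push S hI' hf' heI' h4 hy' hx
  exact Ar.inner S (hpe.trans hpf.symm) hy hx h5

end D0L.TN
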