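import Pool.Agent.H.MP_374efc_lc.Fr.Ti1
import Pool.Agent.H.MP_374efc_lc.Fr.In2

/-!
# MP_374efc_lc: token systems without the code hypothesis (P1): definitions and basic facts

The same structure as `TS` without the field `code`; the proofs of this file are copies of the proofs in
the files Tb1, Tb2, Ti1, Tr1, Tr2, Tr3, Ts1 of the folder Fr.
Paper proof of P1: /team-store/h25_374efc_NFORM.md, /team-store/h22_374efc_P1.md
-/

set_option autoImplicit false

namespace D0L

/-- Token systems without the code hypothesis. -/
structure TN (α P T : Type) where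
  h : α → List α
  pr : P → α
  hh : P → List P
  tk : T → List P
  H : T → List T
  pr_hh : ∀ e, (hh e).map pr = h (pr e)
  hh_tk : ∀ t, app hh (tk t) = app tk (H t)
  ne : ∀ a, h a ≠ []
  grow : ∀ B, ∃ K, ∀ k, K ≤ k → ∀ a, B ≤ (it h k [a]).length
  sur : ∀ a, ∃ e, pr e = a
  cov : ∀ e, ∃ t, e ∈ tk t
  uniq : ∀ e t u v t' u' v', tk t = u ++ e :: v → tk t' = u' ++ e :: v' → t = t' ∧ u = u' ∧ v = v'
  tkne : ∀ t, tk t ≠ []
  irr : ∀ t t', ∃ q, t' ∈ it H q [t]

namespace TN

variable {α P T : Type} (S : TN α P T)

/-- The word of the product of the tokens `z`. -/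
def W (z : List T) : List α := (app S.tk z).map S.pr

/-- Tile words: factors of products of tokens (on the level of positions). -/
def Tile (V : List P) : Prop := ∃ z, V <:+: app S.tk z

/-- First elements of tokens. -/
def St (e : P) : Prop := ∃ t v, S.tk t = e :: v

/-- Last elements of tokens. -/
def En (e : P) : Prop := ∃ t v, S.tk t = v ++ [e]

/-- Number of values of the map `e ↦ (it hh k [e])[J]` on the fibre of `a`. -/
noncomputable def rk [Fintype P] (a : α) (k J : ℕ) : ℕ := by
  classical
  exact ((Finset.univ.filter (fun e : P => S.pr e = a)).image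
    (fun e => (it S.hh k [e])[J]?)).card

/-- The minimal rank. -/
noncomputable def c [Fintype P] : ℕ := sInf {n | ∃ a k J, J < (it S.h k [a]).length ∧ S.rk a k J = n}

/-- Positions of minimal rank. -/
def RC [Fintype P] (a : α) (k J : ℕ) : Prop := J < (it S.h k [a]).length ∧ S.rk a k J = S.c

/-- Minimal images (over the letter `b`). -/
def MI [Fintype P] (b : α) (I : Finset P) : Prop :=
  ∃ a k J, S.RC a k J ∧ (it S.h k [a])[J]? = some b ∧
    ∀ x, x ∈ I ↔ ∃ e, S.pr e = a ∧ (it S.hh k [e])[J]? = some x

/-- A switch from (the tokens of) `e` to `f` at level `k`: a product of tokens between a token start of `hh^k(e)` and a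
later one of `hh^k(f)`. -/
def Sw (k : ℕ) (e f : P) : Prop :=
  ∃ X Y Z z x y, it S.h k [S.pr e] = X ++ Y ++ Z ∧ Y = S.W z ∧
    (it S.hh k [e])[X.length]? = some x ∧ S.St x ∧
    (it S.hh k [f])[(X ++ Y).length]? = some y ∧ S.St y

/-- Equivalent elements: same letter, same image at all positions of minimal rank. -/
def Eqv [Fintype P] (e e' : P) : Prop :=
  S.pr e = S.pr e' ∧ ∀ k J, S.RC (S.pr e) k J → (it S.hh k [e])[J]? = (it S.hh k [e'])[J]?

/-- Neighbouring elements. -/
def Adj (e f : P) : Prop := ∃ g k A B, it S.hh k [g] = A ++ e :: f :: B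

end TN


namespace TN

variable {α P T : Type} (S : TN α P T)

theorem tb1_map_app (V : List P) : (app S.hh V).map S.pr = app S.h (V.map S.pr) := by
  induction V with
  | nil => rfl
  | cons e V ih =>
    rw [app_cons, List.map_append, ih, S.pr_hh, List.map_cons, app_cons]

theorem map_it (k : ℕ) (V : List P) : (it S.hh k V).map S.pr = it S.h k (V.map S.pr) := by
  induction k with
  | zero => rfl
  | succ k ih => rw [it_succ, it_succ, tb1_map_app, ih]

theorem length_it (k : ℕ) (V : List P) : (it S.hh k V).length = (it S.h k (V.map S.pr)).length := by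
  rw [← map_it, List.length_map]

theorem tb1_app_tk (z : List T) : app S.hh (app S.tk z) = app S.tk (app S.H z) := by
  rw [app_app, app_app]
  congr 1
  funext t
  exact S.hh_tk t

theorem it_tk (k : ℕ) (z : List T) : it S.hh k (app S.tk z) = app S.tk (it S.H k z) := by
  induction k with
  | zero => rfl
  | succ k ih => rw [it_succ, it_succ, ih, tb1_app_tk]

/-- `h^k` of a product of tokens is a product of tokens. -/
theorem it_W (k : ℕ) (z : List T) : it S.h k (S.W z) = S.W (it S.H k z) := by
  unfold W
  rw [← map_it, it_tk]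

theorem Tile.it {V : List P} (hV : S.Tile V) (k : ℕ) : S.Tile (it S.hh k V) := by
  obtain ⟨z, s, t, hz⟩ := hV
  refine ⟨D0L.it S.H k z, D0L.it S.hh k s, D0L.it S.hh k t, ?_⟩
  rw [← it_append, ← it_append, hz, it_tk]

theorem tile_it (k : ℕ) (e : P) : S.Tile (it S.hh k [e]) := by
  obtain ⟨t, ht⟩ := S.cov e
  obtain ⟨u, v, huv⟩ := List.append_of_mem ht
  have h1 : S.Tile [e] := ⟨[t], u, v, by rw [app_singleton, huv]; simp⟩
  exact Tile.it S h1 k

end TN

namespace TN

variable {α P T : Type} (S : TN α P T)

/-- Token starts are token boundaries.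
Proof: induction on `z`: `z = t :: z'`; if `A` is shorter than `tk t` then `x` is an element of `tk t`, by `uniq` it is its first element and
`A = []`; otherwise `A = tk t ++ A'`. -/
theorem boundary {z : List T} {A B : List P} {x : P} (hz : app S.tk z = A ++ x :: B)
    (hx : S.St x) : ∃ z1 z2, z = z1 ++ z2 ∧ A = app S.tk z1 ∧ x :: B = app S.tk z2 := by
  induction z generalizing A with
  | nil =>
    rw [app_nil] at hz
    have h1 := congrArg List.length hz
    simp at h1
  | cons t z ih =>
    rw [app_cons] at hz
    rcases List.append_eq_append_iff.1 hz with ⟨A', h1, h2⟩ | ⟨C, h1, h2⟩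
    · obtain ⟨z1, z2, h3, h4, h5⟩ := ih h2
      refine ⟨t :: z1, z2, by rw [h3, List.cons_append], ?_, h5⟩
      rw [h1, app_cons, h4]
    · cases C with
      | nil =>
        refine ⟨[t], z, rfl, ?_, ?_⟩
        · rw [app_singleton, h1, List.append_nil]
        · simpa using h2
      | cons c C =>
        have h3 : x = c ∧ B = C ++ app S.tk z := by simpa using h2
        obtain ⟨rfl, h4⟩ := h3
        obtain ⟨t0, v0, h5⟩ := hx
        obtain ⟨_, h6, _⟩ := S.uniq x t A C t0 [] v0 h1 h5
        refine ⟨[], t :: z, rfl, ?_, ?_⟩
        · rw [h6, app_nil]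
        · rw [app_cons, h1, h6, h4]
          rfl

/-- Between two token starts a tile word is a product of tokens.
Proof: extend to `app tk z`; `boundary` at `y`, then at `x` in the first part. -/
theorem seg {A B C : List P} {x y : P} (hV : S.Tile (A ++ x :: B ++ y :: C)) (hx : S.St x)
    (hy : S.St y) : ∃ z, x :: B = app S.tk z := by
  obtain ⟨z, s, e, h1⟩ := hV
  have h2 : app S.tk z = (s ++ A ++ x :: B) ++ y :: (C ++ e) := by
    rw [← h1]
    simp
  obtain ⟨z1, z2, _, h4, _⟩ := S.boundary h2 hy
  obtain ⟨z3, z4, _, _, h7⟩ := S.boundary h4.symm hx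
  exact ⟨z4, h7⟩

theorem tb2_it_ne {w : List α} (hw : w ≠ []) (k : ℕ) : it S.h k w ≠ [] := by
  induction k with
  | zero => exact hw
  | succ k ih =>
    rw [it_succ]
    intro h1
    have h2 := length_le_app S.ne (it S.h k w)
    rw [h1] at h2
    have h3 := List.length_pos_of_ne_nil ih
    simp at h2
    exact ih h2

/-- The images of a token start begin with a token start. -/
theorem st_it {x : P} (hx : S.St x) (k : ℕ) : ∃ y V, it S.hh k [x] = y :: V ∧ S.St y := by
  obtain ⟨t, v, ht⟩ := hx
  have h1 : it S.hh k [x] ≠ [] := by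
    intro h2
    have h3 := S.length_it k [x]
    rw [h2] at h3
    have h4 := List.length_pos_of_ne_nil (S.tb2_it_ne (w := [x].map S.pr) (by simp) k)
    simp only [List.length_nil] at h3
    omega
  obtain ⟨y, V, h2⟩ := List.exists_cons_of_ne_nil h1
  refine ⟨y, V, h2, ?_⟩
  have h3 := S.it_tk k [t]
  rw [app_singleton, ht] at h3
  have h4 : it S.hh k (x :: v) = it S.hh k [x] ++ it S.hh k v := it_append S.hh k [x] v
  rw [h4, h2] at h3
  cases hz : it S.H k [t] with
  | nil =>
    rw [hz, app_nil] at h3
    simp at h3
  | cons t' z' =>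
    rw [hz, app_cons] at h3
    obtain ⟨y', v', h5⟩ := List.exists_cons_of_ne_nil (S.tkne t')
    rw [h5] at h3
    have h6 : y = y' := by
      simp at h3
      exact h3.1
    exact ⟨t', v', by rw [h5, h6]⟩

theorem tb2_long {M : ℕ} (hM : ∀ t, (S.tk t).length ≤ M) (z : List T) :
    ∀ s V e : List P, s ++ V ++ e = app S.tk z → M + 1 ≤ V.length →
      ∃ A x B, V = A ++ x :: B ∧ S.St x := by
  induction z with
  | nil =>
    intro s V e h1 h2
    rw [app_nil] at h1
    have h3 := congrArg List.length h1
    simp at h3
    rw [h3.2.1] at h2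
    simp at h2
  | cons t z ih =>
    intro s V e h1 h2
    rw [app_cons, List.append_assoc] at h1
    rcases List.append_eq_append_iff.1 h1 with ⟨C, h3, h4⟩ | ⟨s', h3, h4⟩
    · have h5 : C.length ≤ M := by
        have h6 := hM t
        rw [h3] at h6
        simp at h6
        omega
      rcases List.append_eq_append_iff.1 h4 with ⟨D, h6, h7⟩ | ⟨V', h6, h7⟩
      · exfalso
        have h8 := congrArg List.length h6
        simp at h8
        omega
      · cases z with
        | nil =>
          exfalso
          rw [app_nil] at h7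
          have h8 := congrArg List.length h7
          have h9 := congrArg List.length h6
          simp at h8 h9
          omega
        | cons t' z' =>
          rw [app_cons] at h7
          obtain ⟨x, v, h8⟩ := List.exists_cons_of_ne_nil (S.tkne t')
          rw [h8] at h7
          cases V' with
          | nil =>
            exfalso
            have h9 := congrArg List.length h6
            simp at h9
            omega
          | cons x' V'' =>
            have h9 : x = x' := by
              simp at h7
              exact h7.1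
            exact ⟨C, x', V'', h6, t', v, by rw [h8, h9]⟩
    · exact ih s' V e (by rw [h4, List.append_assoc]) h2

/-- Long tile words contain token starts.  Proof: `L = 2 * max |tk t|`; a factor of length `≥ 2 B` of a product of blocks of length
`≤ B` contains a full block (induction on `z`, or `full_block`). -/
theorem long_st [Fintype T] : ∃ L, ∀ V, S.Tile V → L ≤ V.length → ∃ A x B, V = A ++ x :: B ∧ S.St x := by
  refine ⟨(Finset.univ.sup fun t => (S.tk t).length) + 1, ?_⟩
  intro V hV hL
  obtain ⟨z, s, e, h1⟩ := hV
  exact S.tb2_long (fun t => Finset.le_sup (f := fun t => (S.tk t).length) (Finset.mem_univ t)) z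
    s V e h1 hL

/-- Position version of `seg`: if `V[v]`, `V[v']` are token starts, `v ≤ v'`, of the tile word `V` then the letters in
between form a product of tokens. -/
theorem seg_get {V : List P} (hV : S.Tile V) {v v' : ℕ} {x y : P} (hv : V[v]? = some x)
    (hv' : V[v']? = some y) (hx : S.St x) (hy : S.St y) (hle : v ≤ v') :
    ∃ z, (V.drop v).take (v' - v) = app S.tk z := by
  rcases Nat.eq_or_lt_of_le hle with h1 | h1
  · refine ⟨[], ?_⟩
    rw [h1, Nat.sub_self, List.take_zero, app_nil]
  · obtain ⟨hl, hg⟩ := List.getElem?_eq_some_iff.1 hv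
    obtain ⟨hl', hg'⟩ := List.getElem?_eq_some_iff.1 hv'
    have h2 : V.drop v = x :: V.drop (v + 1) := by
      rw [← hg]
      exact List.drop_eq_getElem_cons hl
    have h3 : V.drop v' = y :: V.drop (v' + 1) := by
      rw [← hg']
      exact List.drop_eq_getElem_cons hl'
    obtain ⟨d, hd⟩ : ∃ d, v' - v = d + 1 := ⟨v' - v - 1, by omega⟩
    have h4 : (V.drop v).take (v' - v) = x :: (V.drop (v + 1)).take d := by
      rw [h2, hd, List.take_succ_cons]
    have h5 : V = V.take v ++ x :: (V.drop (v + 1)).take d ++ y :: V.drop (v' + 1) := by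
      have h6 : (V.drop v).drop (v' - v) = y :: V.drop (v' + 1) := by
        rw [List.drop_drop, ← h3]
        congr 1
        omega
      rw [← h4, ← h6, List.append_assoc, List.take_append_drop, List.take_append_drop]
    rw [h4]
    exact S.seg (A := V.take v) (C := V.drop (v' + 1)) (by rw [← h5]; exact hV) hx hy

end TN

end D0L
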