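import Pool.Agent.H.MP_374efc_lc.Pn.Bs1

/-!
# MP_374efc_lc: token systems without the code hypothesis (P1): minimal images

Copies of the files Ti1, Tr1, Tr2, Tr3, Ts1 and of parts of Tt1, Tt3 of the folder Fr.
-/

set_option autoImplicit false

namespace D0L.TN

section


variable {α P T : Type} (S : TN α P T)

theorem ti1_full {M : ℕ} (hM : ∀ t, (S.tk t).length ≤ M) (z : List T) :
    ∀ s V e : List P, s ++ V ++ e = app S.tk z → 2 * M + 1 ≤ V.length → ∃ t, S.tk t <:+: V := by
  induction z with
  | nil =>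
    intro s V e h1 h2
    rw [app_nil] at h1
    have h3 := congrArg List.length h1
    simp only [List.length_append, List.length_nil] at h3
    omega
  | cons t z ih =>
    intro s V e h1 h2
    rw [app_cons, List.append_assoc] at h1
    rcases List.append_eq_append_iff.1 h1 with ⟨C, h3, h4⟩ | ⟨s', h3, h4⟩
    · have h5 : C.length ≤ M := by
        have h6 := hM t
        rw [h3] at h6
        simp only [List.length_append] at h6
        omega
      rcases List.append_eq_append_iff.1 h4 with ⟨D, h6, h7⟩ | ⟨V', h6, h7⟩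
      · exfalso
        have h8 := congrArg List.length h6
        simp only [List.length_append] at h8
        omega
      · have h9 := congrArg List.length h6
        simp only [List.length_append] at h9
        cases z with
        | nil =>
          exfalso
          rw [app_nil] at h7
          have h8 := congrArg List.length h7
          simp only [List.length_append, List.length_nil] at h8
          omega
        | cons t' z' =>
          rw [app_cons] at h7
          have h10 := hM t'
          rcases List.append_eq_append_iff.1 h7 with ⟨E, h11, _⟩ | ⟨E, h11, _⟩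
          · exact ⟨t', C, E, by rw [h6, h11, List.append_assoc]⟩
          · have h12 := congrArg List.length h11
            simp only [List.length_append] at h12
            omega
    · exact ih s' V e (by rw [h4, List.append_assoc]) h2

/-- Long tile words contain a full token.
Proof: a factor of length `≥ 2 B` of a product of blocks of length `≤ B` (`B = max |tk t| ≥ 1`) contains a full block. -/
theorem long_full [Fintype T] : ∃ L, ∀ V, S.Tile V → L ≤ V.length → ∃ t, S.tk t <:+: V := by
  refine ⟨2 * (Finset.univ.sup fun t => (S.tk t).length) + 1, ?_⟩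
  intro V hV hL
  obtain ⟨z, s, e, h1⟩ := hV
  exact S.ti1_full (fun t => Finset.le_sup (f := fun t => (S.tk t).length) (Finset.mem_univ t)) z
    s V e h1 hL

/-- Every element is reached from every element.
Proof: `|it hh k [e]| = |it h k [pr e]|` is large (`grow`), so it contains a full token `tk t` (`long_full`).  Let `e' ∈ tk t'` (`cov`) and
`t' ∈ it H q [t]` (`irr`).  `it hh q (tk t) = app tk (it H q [t])` contains `tk t'`. -/
theorem reach [Fintype T] (e e' : P) : ∃ q, e' ∈ it S.hh q [e] := by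
  obtain ⟨L, hL⟩ := S.long_full
  obtain ⟨K, hK⟩ := S.grow L
  have h1 : L ≤ (it S.hh K [e]).length := by
    rw [S.length_it]
    exact hK K le_rfl (S.pr e)
  obtain ⟨t, s, u, h2⟩ := hL _ (S.tile_it K e) h1
  obtain ⟨t', ht'⟩ := S.cov e'
  obtain ⟨q, hq⟩ := S.irr t t'
  refine ⟨q + K, ?_⟩
  rw [it_add, ← h2, it_append, it_append, List.mem_append, List.mem_append]
  refine Or.inl (Or.inr ?_)
  have h3 := S.it_tk q [t]
  rw [app_singleton] at h3
  rw [h3]
  exact mem_app.2 ⟨t', hq, ht'⟩

theorem reach_bdd [Fintype T] [Fintype P] : ∃ Q, ∀ e e', ∃ q ≤ Q, e' ∈ it S.hh q [e] := by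
  choose f hf using S.reach
  refine ⟨Finset.univ.sup fun x : P × P => f x.1 x.2, ?_⟩
  intro e e'
  exact ⟨f e e', Finset.le_sup (f := fun x : P × P => f x.1 x.2) (Finset.mem_univ (e, e')),
    hf e e'⟩

/-- Proof: `reach` for elements over `a` and `b` (`sur`), then project (`map_it`). -/
theorem reach_letter [Fintype T] (a b : α) : ∃ q, b ∈ it S.h q [a] := by
  obtain ⟨e, rfl⟩ := S.sur a
  obtain ⟨e', rfl⟩ := S.sur b
  obtain ⟨q, hq⟩ := S.reach e e'
  refine ⟨q, ?_⟩
  have h1 := S.map_it q [e]
  rw [List.map_singleton] at h1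
  rw [← h1]
  exact List.mem_map_of_mem hq

end

section


variable {α P T : Type} [Fintype P] (S : TN α P T)

theorem c_le {a : α} {k J : ℕ} (hJ : J < (it S.h k [a]).length) : S.c ≤ S.rk a k J :=
  Nat.sInf_le ⟨a, k, J, hJ, rfl⟩

theorem exists_rc [Nonempty α] : ∃ a k J, S.RC a k J := by
  obtain ⟨a0⟩ := ‹Nonempty α›
  have h1 : {n | ∃ a k J, J < (it S.h k [a]).length ∧ S.rk a k J = n}.Nonempty :=
    ⟨S.rk a0 0 0, a0, 0, 0, by simp [it_zero], rfl⟩
  obtain ⟨a, k, J, hJ, h2⟩ := Nat.sInf_mem h1
  exact ⟨a, k, J, hJ, h2⟩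

omit [Fintype P] in
theorem tr1_lt {a b : α} {k J l J' : ℕ} (hb : (it S.h k [a])[J]? = some b)
    (hJ : J' < (it S.h l [b]).length) :
    (it S.h l ((it S.h k [a]).take J)).length + J' < (it S.h (l + k) [a]).length := by
  have h1 := it_get S.h l hb hJ
  rw [← it_add] at h1
  have h2 : (it S.h l [b])[J']? = some ((it S.h l [b])[J']) := List.getElem?_eq_getElem hJ
  rw [h2] at h1
  exact (List.getElem?_eq_some_iff.1 h1).1

omit [Fintype P] in
theorem tr1_val {a b : α} {k J l J' : ℕ} (hb : (it S.h k [a])[J]? = some b)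
    (hJ : J' < (it S.h l [b]).length) {e : P} (he : S.pr e = a) :
    ∃ f, (it S.hh k [e])[J]? = some f ∧ S.pr f = b ∧
      (it S.hh (l + k) [e])[(it S.h l ((it S.h k [a]).take J)).length + J']? =
        (it S.hh l [f])[J']? := by
  have h1 : (it S.hh k [e]).map S.pr = it S.h k [a] := by
    rw [S.map_it, List.map_singleton, he]
  have h2 := hb
  rw [← h1, List.getElem?_map] at h2
  obtain ⟨f, h3, h4⟩ := Option.map_eq_some_iff.1 h2
  refine ⟨f, h3, h4, ?_⟩
  have h5 : J' < (it S.hh l [f]).length := by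
    rw [S.length_it, List.map_singleton, h4]
    exact hJ
  have h6 := it_get S.hh l h3 h5
  have h7 : (it S.hh l ((it S.hh k [e]).take J)).length =
      (it S.h l ((it S.h k [a]).take J)).length := by
    rw [S.length_it, List.map_take, h1]
  rw [h7, ← it_add] at h6
  exact h6

/-- Following a position of minimal rank.
Proof: the map `e ↦ (it hh (l+k) [e])[..]` is the composition of `e ↦ (it hh k [e])[J]` with `x ↦ (it hh l [x])[J']` (`it_add`, `it_get`), so the
rank does not increase; `c_le`. -/
theorem RC.push {a b : α} {k J l J' : ℕ} (hr : S.RC a k J) (hb : (it S.h k [a])[J]? = some b)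
    (hJ : J' < (it S.h l [b]).length) :
    S.RC a (l + k) ((it S.h l ((it S.h k [a]).take J)).length + J') := by
  classical
  refine ⟨S.tr1_lt hb hJ, le_antisymm ?_ (S.c_le (S.tr1_lt hb hJ))⟩
  rw [← hr.2]
  unfold rk
  have h1 : (Finset.univ.filter (fun e : P => S.pr e = a)).image
      (fun e => (it S.hh (l + k) [e])[(it S.h l ((it S.h k [a]).take J)).length + J']?) ⊆
      ((Finset.univ.filter (fun e : P => S.pr e = a)).image
        (fun e => (it S.hh k [e])[J]?)).image
        (fun o => o.bind (fun f => (it S.hh l [f])[J']?)) := by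
    intro o ho
    obtain ⟨e, he, rfl⟩ := Finset.mem_image.1 ho
    have he' : S.pr e = a := (Finset.mem_filter.1 he).2
    obtain ⟨f, h3, h4, h5⟩ := S.tr1_val hb hJ he'
    refine Finset.mem_image.2 ⟨(it S.hh k [e])[J]?, Finset.mem_image.2 ⟨e, he, rfl⟩, ?_⟩
    rw [h5, h3]
    rfl
  convert (Finset.card_le_card h1).trans Finset.card_image_le

/-- Preceding a position of minimal rank.  Proof: the image of the fibre of `a` is contained in the fibre of `b`. -/
theorem RC.pre {a b : α} {k J l J' : ℕ} (hJ : (it S.h k [a])[J]? = some b)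
    (hr : S.RC b l J') : S.RC a (l + k) ((it S.h l ((it S.h k [a]).take J)).length + J') := by
  classical
  refine ⟨S.tr1_lt hJ hr.1, le_antisymm ?_ (S.c_le (S.tr1_lt hJ hr.1))⟩
  rw [← hr.2]
  unfold rk
  have h1 : (Finset.univ.filter (fun e : P => S.pr e = a)).image
      (fun e => (it S.hh (l + k) [e])[(it S.h l ((it S.h k [a]).take J)).length + J']?) ⊆
      (Finset.univ.filter (fun e : P => S.pr e = b)).image (fun e => (it S.hh l [e])[J']?) := by
    intro o ho
    obtain ⟨e, he, rfl⟩ := Finset.mem_image.1 ho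
    have he' : S.pr e = a := (Finset.mem_filter.1 he).2
    obtain ⟨f, h3, h4, h5⟩ := S.tr1_val hJ hr.1 he'
    refine Finset.mem_image.2 ⟨f, Finset.mem_filter.2 ⟨Finset.mem_univ f, h4⟩, ?_⟩
    rw [h5]
  convert Finset.card_le_card h1

end

section


variable {α P T : Type} [Fintype P] (S : TN α P T)

theorem tr2_len {e : P} {a : α} (he : S.pr e = a) (k : ℕ) :
    (it S.hh k [e]).length = (it S.h k [a]).length := by
  rw [S.length_it, List.map_cons, List.map_nil, he]

theorem tr2_some {e : P} {a : α} (he : S.pr e = a) {k J : ℕ} (hJ : J < (it S.h k [a]).length) :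
    ∃ x, (it S.hh k [e])[J]? = some x := by
  have h1 : J < (it S.hh k [e]).length := by rw [S.tr2_len he]; exact hJ
  exact ⟨_, List.getElem?_eq_getElem h1⟩

theorem tr2_pr {e : P} {a : α} (he : S.pr e = a) {k J : ℕ} {b : α} {x : P}
    (hb : (it S.h k [a])[J]? = some b) (hx : (it S.hh k [e])[J]? = some x) : S.pr x = b := by
  have h1 : it S.h k [a] = (it S.hh k [e]).map S.pr := by
    rw [S.map_it, List.map_cons, List.map_nil, he]
  rw [h1, List.getElem?_map, hx, Option.map_some] at hb
  exact Option.some.inj hb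

theorem tr2_lt {w : List α} {J : ℕ} {b : α} (hb : w[J]? = some b) : J < w.length := by
  by_contra h
  rw [List.getElem?_eq_none (not_lt.1 h)] at hb
  cases hb

theorem MI.card {b : α} {I : Finset P} (hI : S.MI b I) : I.card = S.c := by
  classical
  obtain ⟨a, k, J, hr, hb, h⟩ := hI
  rw [← hr.2]
  unfold rk
  rw [← Finset.card_image_of_injective I (Option.some_injective P)]
  congr 1
  ext o
  simp only [Finset.mem_image, Finset.mem_filter, Finset.mem_univ, true_and]
  constructor
  · rintro ⟨x, hx, rfl⟩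
    obtain ⟨e, he, hex⟩ := (h x).1 hx
    exact ⟨e, he, hex⟩
  · rintro ⟨e, he, rfl⟩
    obtain ⟨x, hx⟩ := S.tr2_some he hr.1
    exact ⟨x, (h x).2 ⟨e, he, hx⟩, hx.symm⟩

theorem MI.pr_eq {b : α} {I : Finset P} (hI : S.MI b I) {x : P} (hx : x ∈ I) : S.pr x = b := by
  obtain ⟨a, k, J, hr, hb, h⟩ := hI
  obtain ⟨e, he, hex⟩ := (h x).1 hx
  exact S.tr2_pr he hb hex

theorem MI.nonempty {b : α} {I : Finset P} (hI : S.MI b I) : I.Nonempty := by
  obtain ⟨a, k, J, hr, hb, h⟩ := hI
  obtain ⟨e, he⟩ := S.sur a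
  obtain ⟨x, hx⟩ := S.tr2_some he hr.1
  exact ⟨x, (h x).2 ⟨e, he, hx⟩⟩

theorem tr2_get {e : P} {a : α} (he : S.pr e = a) {k₀ J₀ k J : ℕ} {b : α} {x : P}
    (hx : (it S.hh k₀ [e])[J₀]? = some x) (hb : (it S.h k₀ [a])[J₀]? = some b)
    (hJ : J < (it S.h k [b]).length) :
    (it S.hh (k + k₀) [e])[(it S.h k ((it S.h k₀ [a]).take J₀)).length + J]? =
      (it S.hh k [x])[J]? := by
  have h1 : (it S.hh k ((it S.hh k₀ [e]).take J₀)).length =
      (it S.h k ((it S.h k₀ [a]).take J₀)).length := by
    rw [S.length_it, List.map_take, S.map_it, List.map_cons, List.map_nil, he]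
  rw [it_add, ← h1]
  refine it_get S.hh k hx ?_
  rw [S.tr2_len (S.tr2_pr he hb hx)]
  exact hJ

/-- A minimal image is mapped injectively onto a minimal image.
Proof: `RC.push` for the defining position; both images have `c` elements. -/
theorem MI.push {b b' : α} {I : Finset P} (hI : S.MI b I) {k J : ℕ}
    (hb : (it S.h k [b])[J]? = some b') :
    ∃ I', S.MI b' I' ∧ (∀ x' ∈ I', ∃ x ∈ I, (it S.hh k [x])[J]? = some x') ∧
      (∀ x ∈ I, ∃ x' ∈ I', (it S.hh k [x])[J]? = some x') ∧
      ∀ x ∈ I, ∀ y ∈ I, (it S.hh k [x])[J]? = (it S.hh k [y])[J]? → x = y := by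
  classical
  have hJ : J < (it S.h k [b]).length := tr2_lt hb
  have hIpr : ∀ x ∈ I, S.pr x = b := fun x hx => MI.pr_eq S hI hx
  have hcard := MI.card S hI
  obtain ⟨a, k₀, J₀, hr, hb₀, h⟩ := hI
  let I' : Finset P := Finset.univ.filter fun x' => ∃ x ∈ I, (it S.hh k [x])[J]? = some x'
  have hmem : ∀ x', x' ∈ I' ↔ ∃ x ∈ I, (it S.hh k [x])[J]? = some x' := by
    intro x'
    simp [I']
  have hMI : S.MI b' I' := by
    refine ⟨a, k + k₀, (it S.h k ((it S.h k₀ [a]).take J₀)).length + J,
      RC.push S hr hb₀ hJ, ?_, ?_⟩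
    · rw [it_add, it_get S.h k hb₀ hJ]
      exact hb
    · intro x'
      rw [hmem]
      constructor
      · rintro ⟨x, hx, hxx⟩
        obtain ⟨e, he, hex⟩ := (h x).1 hx
        exact ⟨e, he, by rw [S.tr2_get he hex hb₀ hJ]; exact hxx⟩
      · rintro ⟨e, he, hex⟩
        obtain ⟨x, hx⟩ := S.tr2_some he hr.1
        rw [S.tr2_get he hx hb₀ hJ] at hex
        exact ⟨x, (h x).2 ⟨e, he, hx⟩, hex⟩
  refine ⟨I', hMI, fun x' hx' => (hmem x').1 hx', ?_, ?_⟩
  · intro x hx
    obtain ⟨x', hx'⟩ := S.tr2_some (hIpr x hx) hJ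
    exact ⟨x', (hmem x').2 ⟨x, hx, hx'⟩, hx'⟩
  · have hcard' := MI.card S hMI
    have himg : I.image (fun x => (it S.hh k [x])[J]?) = I'.image some := by
      ext o
      simp only [Finset.mem_image]
      constructor
      · rintro ⟨x, hx, rfl⟩
        obtain ⟨x', hx'⟩ := S.tr2_some (hIpr x hx) hJ
        exact ⟨x', (hmem x').2 ⟨x, hx, hx'⟩, hx'.symm⟩
      · rintro ⟨x', hx', rfl⟩
        exact (hmem x').1 hx'
    have hc : (I.image (fun x => (it S.hh k [x])[J]?)).card = I.card := by
      rw [himg, Finset.card_image_of_injective _ (Option.some_injective P), hcard', hcard]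
    have hinj := Finset.card_image_iff.1 hc
    intro x hx y hy hxy
    exact hinj hx hy hxy

end

section


variable {α P T : Type} [Fintype P] (S : TN α P T)

omit [Fintype P] in
theorem tr3_pos (l : ℕ) (b : α) : 0 < (it S.h l [b]).length := by
  have key : ∀ (n : ℕ) (w : List α), w.length ≤ (it S.h n w).length := by
    intro n w
    induction n with
    | zero => exact le_rfl
    | succ n ih =>
      rw [it_succ]
      exact ih.trans (length_le_app S.ne _)
  exact lt_of_lt_of_le (by simp) (key l [b])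

theorem tr3_get {w : List α} {J : ℕ} (hJ : J < w.length) : ∃ b, w[J]? = some b :=
  ⟨w[J], List.getElem?_eq_getElem hJ⟩

/-- Every fibre contains a minimal image.  Proof: `exists_rc`, `reach_letter`, `RC.push`. -/
theorem MI.exists [Nonempty α] [Fintype T] (b : α) : ∃ I, S.MI b I := by
  classical
  obtain ⟨a, k, J, hr⟩ := S.exists_rc
  obtain ⟨c, hc⟩ := tr3_get hr.1
  obtain ⟨q, hq⟩ := S.reach_letter c b
  obtain ⟨J', hJ'⟩ := List.mem_iff_getElem?.1 hq
  have hlt : J' < (it S.h q [c]).length := tr2_lt hJ'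
  refine ⟨Finset.univ.filter (fun x => ∃ e, S.pr e = a ∧
    (it S.hh (q + k) [e])[(it S.h q ((it S.h k [a]).take J)).length + J']? = some x), a, q + k,
    (it S.h q ((it S.h k [a]).take J)).length + J', RC.push S hr hc hlt, ?_, ?_⟩
  · rw [it_add, it_get S.h q hc hlt]
    exact hJ'
  · intro x
    simp

/-- Proof: any minimal image, an element of it reaches `e` (`reach`), `MI.push`. -/
theorem MI.exists_mem [Nonempty α] [Fintype T] (e : P) : ∃ I, S.MI (S.pr e) I ∧ e ∈ I := by
  obtain ⟨I, hI⟩ := MI.exists S (S.pr e)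
  obtain ⟨x, hx⟩ := MI.nonempty S hI
  obtain ⟨q, hq⟩ := S.reach x e
  obtain ⟨j, hj⟩ := List.mem_iff_getElem?.1 hq
  have hb : (it S.h q [S.pr e])[j]? = some (S.pr e) := by
    have h1 : it S.h q [S.pr e] = (it S.hh q [x]).map S.pr := by
      rw [S.map_it, List.map_cons, List.map_nil, MI.pr_eq S hI hx]
    rw [h1, List.getElem?_map, hj, Option.map_some]
  obtain ⟨I', hI', -, h3, -⟩ := MI.push S hI hb
  obtain ⟨x', hx', hx''⟩ := h3 x hx
  rw [hj, Option.some.injEq] at hx''
  exact ⟨I', hI', hx'' ▸ hx'⟩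

/-- At a position of minimal rank a minimal image has the same image as the whole fibre.
Proof: `I ⊆` fibre, the image of `I` has `c` elements (`MI.push`), the image of the fibre has `c` elements. -/
theorem MI.select {a : α} {I : Finset P} (hI : S.MI a I) {k J : ℕ} (hr : S.RC a k J) {e : P}
    (he : S.pr e = a) : ∃ f ∈ I, (it S.hh k [f])[J]? = (it S.hh k [e])[J]? := by
  classical
  obtain ⟨b, hb⟩ := tr3_get hr.1
  obtain ⟨I', -, -, -, h4⟩ := MI.push S hI hb
  have hsub : I.image (fun x => (it S.hh k [x])[J]?) ⊆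
      (Finset.univ.filter (fun x : P => S.pr x = a)).image (fun x => (it S.hh k [x])[J]?) := by
    apply Finset.image_subset_image
    intro x hx
    rw [Finset.mem_filter]
    exact ⟨Finset.mem_univ _, MI.pr_eq S hI hx⟩
  have hcard : (I.image (fun x => (it S.hh k [x])[J]?)).card = I.card := by
    apply Finset.card_image_of_injOn
    intro x hx y hy hxy
    exact h4 x hx y hy hxy
  have hrk : ((Finset.univ.filter (fun x : P => S.pr x = a)).image
      (fun x => (it S.hh k [x])[J]?)).card = S.c := by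
    rw [← hr.2]
    unfold rk
    congr!
  have heq := Finset.eq_of_subset_of_card_le hsub (by rw [hcard, hrk, MI.card S hI])
  have hmem : (it S.hh k [e])[J]? ∈ I.image (fun x => (it S.hh k [x])[J]?) := by
    rw [heq, Finset.mem_image]
    exact ⟨e, by rw [Finset.mem_filter]; exact ⟨Finset.mem_univ _, he⟩, rfl⟩
  obtain ⟨f, hf, hfe⟩ := Finset.mem_image.1 hmem
  exact ⟨f, hf, hfe⟩

/-- At all large levels all letters have positions of minimal rank, in every block.
Proof: from `b` reach the letter `a0` of some `RC a0 k0 J0` at level `q b`, use `RC.pre` and `RC.push` to go to a common level. -/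
theorem rc_level [Nonempty α] [Fintype α] [Fintype T] : ∃ K, ∀ b, ∃ J, S.RC b K J := by
  obtain ⟨a0, k0, J0, hr0⟩ := S.exists_rc
  choose q hq using fun b => S.reach_letter b a0
  refine ⟨(∑ b, q b) + k0, ?_⟩
  intro b
  have hle : q b ≤ ∑ b, q b := Finset.single_le_sum (fun _ _ => Nat.zero_le _) (Finset.mem_univ b)
  obtain ⟨j, hj⟩ := List.mem_iff_getElem?.1 (hq b)
  have h1 := RC.pre S hj hr0
  obtain ⟨c, hc⟩ := tr3_get h1.1
  have h2 := RC.push S h1 hc (S.tr3_pos ((∑ b, q b) - q b) c)
  have h3 : (∑ b, q b) - q b + (k0 + q b) = (∑ b, q b) + k0 := by omega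
  rw [h3] at h2
  exact ⟨_, h2⟩

end

section


variable {α P T : Type} (S : TN α P T)

theorem ts1_W (z : List T) : app S.h (S.W z) = S.W (app S.H z) := by
  unfold W
  rw [← S.tb1_map_app, S.tb1_app_tk]

/-- One step for a token start of `V = it hh k [e]`. -/
theorem ts1_step {k : ℕ} {e x : P} {X R : List α} (hX : it S.h k [S.pr e] = X ++ R)
    (hx : (it S.hh k [e])[X.length]? = some x) (hs : S.St x) :
    ∃ y, (it S.hh (k + 1) [e])[(app S.h X).length]? = some y ∧ S.St y := by
  obtain ⟨y, V, hV, hy⟩ := S.st_it hs 1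
  refine ⟨y, ?_, hy⟩
  have h1 : 0 < (it S.hh 1 [x]).length := by
    rw [hV]
    simp
  have h2 := it_get S.hh 1 hx h1
  have h3 : ((it S.hh k [e]).take X.length).map S.pr = X := by
    rw [List.map_take, S.map_it]
    change (it S.h k [S.pr e]).take X.length = X
    rw [hX, List.take_left]
  rw [Nat.add_zero, S.length_it, h3, hV] at h2
  rw [it_succ]
  exact h2

/-- Proof: apply `h`: `app h (X ++ Y ++ Z)`, `it_W` with `k = 1`; if `V[|X|]? = some x` (`V = it hh k [e]`) then `app hh V` has at `|app h X|` the first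
element of `hh x`, a token start (`st_it`). -/
theorem Sw.succ {k : ℕ} {e f : P} (hs : S.Sw k e f) (hf : S.pr f = S.pr e) : S.Sw (k + 1) e f := by
  obtain ⟨X, Y, Z, z, x, y, h1, h2, h3, h4, h5, h6⟩ := hs
  obtain ⟨x', hx', hsx⟩ := S.ts1_step (X := X) (R := Y ++ Z) (by rw [h1, List.append_assoc]) h3 h4
  obtain ⟨y', hy', hsy⟩ := S.ts1_step (e := f) (X := X ++ Y) (R := Z) (by rw [hf, h1]) h5 h6
  refine ⟨app S.h X, app S.h Y, app S.h Z, app S.H z, x', y', ?_, ?_, hx', hsx, ?_, hsy⟩
  · rw [it_succ, h1, app_append, app_append]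
  · rw [h2, S.ts1_W]
  · rw [← app_append]
    exact hy'

theorem Sw.mono {k k' : ℕ} {e f : P} (hs : S.Sw k e f) (hf : S.pr f = S.pr e) (hk : k ≤ k') :
    S.Sw k' e f := by
  induction k', hk using Nat.le_induction with
  | base => exact hs
  | succ n _ ih => exact Sw.succ S ih hf

end

section


variable {α P T : Type} [Fintype P] [Nonempty α] [Fintype T] (S : TN α P T)

omit [Fintype P] [Nonempty α] [Fintype T] in
theorem tt1_len (e : P) (k : ℕ) : (it S.hh k [e]).length = (it S.h k [S.pr e]).length := by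
  rw [S.length_it, List.map_cons, List.map_nil]

omit [Fintype P] [Nonempty α] [Fintype T] in
theorem tt1_pr {e : P} {k J : ℕ} {b : α} {x : P} (hb : (it S.h k [S.pr e])[J]? = some b)
    (hx : (it S.hh k [e])[J]? = some x) : S.pr x = b := by
  have h1 : it S.h k [S.pr e] = (it S.hh k [e]).map S.pr := by
    rw [S.map_it, List.map_cons, List.map_nil]
  rw [h1, List.getElem?_map, hx, Option.map_some] at hb
  exact Option.some.inj hb

omit [Fintype P] [Nonempty α] [Fintype T] in
/-- Reading in the block of the position `J₀`. -/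
theorem tt1_get {e : P} {k₀ J₀ k J : ℕ} {b : α} {x : P} (hx : (it S.hh k₀ [e])[J₀]? = some x)
    (hb : (it S.h k₀ [S.pr e])[J₀]? = some b) (hJ : J < (it S.h k [b]).length) :
    (it S.hh (k + k₀) [e])[(it S.h k ((it S.h k₀ [S.pr e]).take J₀)).length + J]? =
      (it S.hh k [x])[J]? := by
  have h1 : (it S.hh k ((it S.hh k₀ [e]).take J₀)).length =
      (it S.h k ((it S.h k₀ [S.pr e]).take J₀)).length := by
    rw [S.length_it, List.map_take, S.map_it, List.map_cons, List.map_nil]
  rw [it_add, ← h1]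
  refine it_get S.hh k hx ?_
  rw [S.tt1_len, S.tt1_pr hb hx]
  exact hJ

omit [Fintype P] [Nonempty α] [Fintype T] in
/-- Two elements over the same letter whose images agree at `J` have the same higher images on a block. -/
theorem tt1_block {y y' : P} (hp : S.pr y = S.pr y') {K l J L : ℕ}
    (hJ : J < (it S.h K [S.pr y]).length) (hL : ∀ a, L ≤ (it S.h l [a]).length)
    (h1 : (it S.hh K [y])[J]? = (it S.hh K [y'])[J]?) {t : ℕ} (ht : t < L) :
    (it S.hh (l + K) [y])[(it S.h l ((it S.h K [S.pr y]).take J)).length + t]? =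
      (it S.hh (l + K) [y'])[(it S.h l ((it S.h K [S.pr y]).take J)).length + t]? := by
  have hb : (it S.h K [S.pr y])[J]? = some ((it S.h K [S.pr y])[J]) :=
    List.getElem?_eq_getElem hJ
  have hJ' : J < (it S.hh K [y]).length := by rw [S.tt1_len]; exact hJ
  have hx : (it S.hh K [y])[J]? = some ((it S.hh K [y])[J]) := List.getElem?_eq_getElem hJ'
  have hx' : (it S.hh K [y'])[J]? = some ((it S.hh K [y])[J]) := by rw [← h1]; exact hx
  have ht' : t < (it S.h l [(it S.h K [S.pr y])[J]]).length := lt_of_lt_of_le ht (hL _)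
  rw [S.tt1_get hx hb ht', hp]
  have hb' : (it S.h K [S.pr y'])[J]? = some ((it S.h K [S.pr y])[J]) := by rw [← hp]; exact hb
  rw [S.tt1_get hx' hb' ht']

omit [Fintype P] [Nonempty α] [Fintype T] in
theorem tt1_block_le (a : α) {K l J L : ℕ} (hJ : J < (it S.h K [a]).length)
    (hL : ∀ a, L ≤ (it S.h l [a]).length) :
    (it S.h l ((it S.h K [a]).take J)).length + L ≤ (it S.h (l + K) [a]).length := by
  have h1 : it S.h K [a] = (it S.h K [a]).take J ++ ([(it S.h K [a])[J]] ++
      (it S.h K [a]).drop (J + 1)) := by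
    conv_lhs => rw [← List.take_append_drop J (it S.h K [a])]
    rw [List.drop_eq_getElem_cons hJ]
    rfl
  have h2 : it S.h (l + K) [a] = it S.h l ((it S.h K [a]).take J) ++
      (it S.h l [(it S.h K [a])[J]] ++ it S.h l ((it S.h K [a]).drop (J + 1))) := by
    rw [it_add]
    conv_lhs => rw [h1]
    rw [it_append, it_append]
  rw [h2, List.length_append, List.length_append]
  have h3 := hL ((it S.h K [a])[J])
  omega

end

end D0L.TN
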