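import Pool.Agent.H.MP_374efc_lc.Pn.Bs2

/-!
# MP_374efc_lc, P1: definitions

Arrows between elements over the same letter, switches with positions, equivalence of elements, successors.
Paper proof: /team-store/h22_374efc_P1.md
-/

set_option autoImplicit false

namespace D0L.TN

variable {α P T : Type} (S : TN α P T)

/-- A switch from `e` to `f` at level `k` with positions: a token start of `hh^k(e)` at `v`, a token start of
`hh^k(f)` at `v'`, and a product of tokens in between. -/
def SwAt (k : ℕ) (e f : P) (v v' : ℕ) : Prop :=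
  v ≤ v' ∧ (∃ x, (it S.hh k [e])[v]? = some x ∧ S.St x) ∧
    (∃ y, (it S.hh k [f])[v']? = some y ∧ S.St y) ∧
    ∃ z, ((it S.h k [S.pr e]).drop v).take (v' - v) = S.W z

/-- The arrow `e → f`: same letter, and a switch from `e` to `f` at some level. -/
def Ar (e f : P) : Prop := S.pr f = S.pr e ∧ ∃ k v v', S.SwAt k e f v v'

/-- Equivalence: arrows between the images at all positions of minimal rank. -/
def Eqn [Fintype P] (e f : P) : Prop :=
  S.pr f = S.pr e ∧ ∀ k J, S.RC (S.pr e) k J → ∀ x y, (it S.hh k [e])[J]? = some x →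
    (it S.hh k [f])[J]? = some y → S.Ar x y

/-- `f` follows `e` in a tile word, up to equivalence. -/
def Nx [Fintype P] (e f : P) : Prop := ∃ x y, S.Tile [x, y] ∧ S.Eqn e x ∧ S.Eqn f y

/-- Words with a path of equivalence classes from a token start to a token end. -/
def GG [Fintype P] (u : List α) : Prop :=
  ∃ E : List P, E.map S.pr = u ∧ (∀ e, E.head? = some e → ∃ s, S.St s ∧ S.Eqn e s) ∧
    (∀ e, E.getLast? = some e → ∃ s, S.En s ∧ S.Eqn e s) ∧
    ∀ A e f B, E = A ++ e :: f :: B → S.Nx e f

end D0L.TN
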