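import Pool.Agent.H.MP_374efc_lc.Pn.Ar3b

/-!
# MP_374efc_lc, P1: one position of minimal rank is enough

Paper proof: /team-store/h22_374efc_P1.md
-/

set_option autoImplicit false

namespace D0L.TN

variable {α P T : Type} [Fintype P] [Nonempty α] [Fintype T] (S : TN α P T)

omit [Nonempty α] [Fintype T] in
/-- The image of the fibre at a position of minimal rank, as a minimal image. -/
theorem rc_mi {a b : α} {k J : ℕ} (hr : S.RC a k J) (hb : (it S.h k [a])[J]? = some b) :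
    ∃ I : Finset P, S.MI b I ∧ ∀ e x, S.pr e = a → (it S.hh k [e])[J]? = some x → x ∈ I := by
  classical
  refine ⟨Finset.univ.filter (fun x => ∃ e, S.pr e = a ∧ (it S.hh k [e])[J]? = some x),
    ⟨a, k, J, hr, hb, ?_⟩, ?_⟩
  · intro x
    simp
  · intro e x he hx
    exact Finset.mem_filter.2 ⟨Finset.mem_univ x, e, he, hx⟩

/-- The same level.  Proof: if `J = J'` nothing is to prove.  `I` a minimal image over `a = pr e` with `e ∈ I` (`MI.exists_mem`), `f' ∈ I` with the same image as `f` at `J'`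
(`MI.select`).  `J < J'`: `Ar.comp` (arrow at `J`, `Ar.refl` at `J'`) gives `Ar e f'`.  `J' < J`: `Ar.comp` (`Ar.refl` at `J'`, the reversed arrow at `J`, `Ar.symm_mi` with
`rc_mi`) gives `Ar f' e`, so `Ar e f'` (`Ar.symm_mi`).  Now `Ar.push` to `J'`. -/
theorem eq1_level [Fintype α] {e f x y x' y' : P} {k J J' : ℕ} (hp : S.pr f = S.pr e)
    (hr : S.RC (S.pr e) k J) (hr' : S.RC (S.pr e) k J') (hx : (it S.hh k [e])[J]? = some x)
    (hy : (it S.hh k [f])[J]? = some y) (h1 : S.Ar x y) (hx' : (it S.hh k [e])[J']? = some x')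
    (hy' : (it S.hh k [f])[J']? = some y') : S.Ar x' y' := by
  obtain ⟨I, hI, heI⟩ := MI.exists_mem S e
  obtain ⟨f', hf'I, hf'⟩ := MI.select S hI hr' (e := f) hp
  rw [hy'] at hf'
  have hpf' : S.pr f' = S.pr e := MI.pr_eq S hI hf'I
  rcases lt_trichotomy J J' with hlt | heq | hgt
  · have h2 : S.Ar e f' := Ar.comp S hp hpf' hlt hx hy h1 hy' hf' (Ar.refl S y')
    exact Ar.push S hI heI hf'I h2 hx' hf'
  · subst heq
    rw [hx, Option.some.injEq] at hx'
    rw [hy, Option.some.injEq] at hy'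
    rw [← hx', ← hy']
    exact h1
  · obtain ⟨b, hb⟩ := tr3_get hr.1
    obtain ⟨I', hI', h3⟩ := S.rc_mi hr hb
    have h4 : S.Ar y x := Ar.symm_mi S hI' (h3 e x rfl hx) (h3 f y hp hy) h1
    have h5 : S.Ar f' e := Ar.comp S (hp.trans hpf'.symm) hpf'.symm hgt hf' hy' (Ar.refl S y') hy
      hx h4
    exact Ar.push S hI heI hf'I (Ar.symm_mi S hI hf'I heI h5) hx' hf'

/-- **K1.**  Proof: for `RC (pr e) k' J'` push both positions to the level `k' + k` (first letter of the block; `RC.push`, `Ar.push` with `rc_mi`), `eq1_level`, and `Ar.inner`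
at the end. -/
theorem eqn_of_rc [Fintype α] {e f x y : P} {k J : ℕ} (hp : S.pr f = S.pr e)
    (hr : S.RC (S.pr e) k J) (hx : (it S.hh k [e])[J]? = some x)
    (hy : (it S.hh k [f])[J]? = some y) (h1 : S.Ar x y) : S.Eqn e f := by
  refine ⟨hp, ?_⟩
  intro k' J' hr' x' y' hx' hy'
  obtain ⟨b, hb⟩ := tr3_get hr.1
  obtain ⟨b', hb'⟩ := tr3_get hr'.1
  have hpx : S.pr x = b := S.tr2_pr rfl hb hx
  have hpy : S.pr y = b := S.tr2_pr hp hb hy
  have hpx' : S.pr x' = b' := S.tr2_pr rfl hb' hx'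
  have hpy' : S.pr y' = b' := S.tr2_pr hp hb' hy'
  have hpos : 0 < (it S.h k' [b]).length := S.tr3_pos k' b
  have hpos' : 0 < (it S.h k [b']).length := S.tr3_pos k b'
  -- the first position, pushed to the level `k' + k`
  obtain ⟨X, hX⟩ := S.tr2_some hpx hpos
  obtain ⟨Y, hY⟩ := S.tr2_some hpy hpos
  obtain ⟨I, hI, h3⟩ := S.rc_mi hr hb
  have h4 : S.Ar X Y := Ar.push S hI (h3 e x rfl hx) (h3 f y hp hy) h1 hX hY
  have h5 := RC.push S hr hb hpos
  have h6 := S.tr2_get rfl hx hb hpos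
  rw [hX] at h6
  have h7 := S.tr2_get hp hy hb hpos
  rw [hY] at h7
  -- the second position
  obtain ⟨X', hX'⟩ := S.tr2_some hpx' hpos'
  obtain ⟨Y', hY'⟩ := S.tr2_some hpy' hpos'
  have h8 := RC.push S hr' hb' hpos'
  have h9 := S.tr2_get rfl hx' hb' hpos'
  rw [hX'] at h9
  have h10 := S.tr2_get hp hy' hb' hpos'
  rw [hY'] at h10
  rw [Nat.add_comm k k'] at h8 h9 h10
  have h11 : S.Ar X' Y' := S.eq1_level hp h5 h8 h6 h7 h4 h9 h10
  exact Ar.inner S (hpy'.trans hpx'.symm) hX' hY' h11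

end D0L.TN
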