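import Pool.Agent.H.MP_374efc_lc.Pn.Eq1

/-!
# MP_374efc_lc, P1: the equivalence relation

Paper proof: /team-store/h22_374efc_P1.md
-/

set_option autoImplicit false

namespace D0L.TN

variable {α P T : Type} [Fintype P] [Nonempty α] [Fintype T] (S : TN α P T)

theorem Eqn.refl (e : P) : S.Eqn e e := by
  refine ⟨rfl, fun k J _ x y hx hy => ?_⟩
  rw [hx, Option.some.injEq] at hy
  rw [← hy]
  exact Ar.refl S x

/-- Proof: `Ar.symm_mi` with `rc_mi`. -/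
theorem Eqn.symm [Fintype α] {e f : P} (h1 : S.Eqn e f) : S.Eqn f e := by
  refine ⟨h1.1.symm, fun k J hr x y hx hy => ?_⟩
  have hr' : S.RC (S.pr e) k J := by rw [← h1.1]; exact hr
  obtain ⟨b, hb⟩ := tr3_get hr'.1
  obtain ⟨I, hI, h3⟩ := S.rc_mi hr' hb
  exact Ar.symm_mi S hI (h3 e y rfl hy) (h3 f x h1.1 hx) (h1.2 k J hr' y x hy hx)

/-- Proof: `Ar.trans_mi` with `rc_mi`. -/
theorem Eqn.trans [Fintype α] {e f g : P} (h1 : S.Eqn e f) (h2 : S.Eqn f g) : S.Eqn e g := by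
  refine ⟨h2.1.trans h1.1, fun k J hr x z hx hz => ?_⟩
  obtain ⟨b, hb⟩ := tr3_get hr.1
  obtain ⟨I, hI, h3⟩ := S.rc_mi hr hb
  obtain ⟨y, hy⟩ := S.tr2_some h1.1 hr.1
  have hr' : S.RC (S.pr f) k J := by rw [h1.1]; exact hr
  exact Ar.trans_mi S hI (h3 e x rfl hx) (h3 f y h1.1 hy) (h3 g z (h2.1.trans h1.1) hz)
    (h1.2 k J hr x y hx hy) (h2.2 k J hr' y z hy hz)

/-- Proof: `rc_level`, `Ar.inner`. -/
theorem Eqn.ar [Fintype α] {e f : P} (h1 : S.Eqn e f) : S.Ar e f := by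
  obtain ⟨K, hK⟩ := S.rc_level
  obtain ⟨J, hr⟩ := hK (S.pr e)
  obtain ⟨x, hx⟩ := S.tr2_some (e := e) rfl hr.1
  obtain ⟨y, hy⟩ := S.tr2_some h1.1 hr.1
  exact Ar.inner S h1.1 hx hy (h1.2 K J hr x y hx hy)

/-- Proof: `RC.pre`: a position of minimal rank of the letter `pr x` gives one of `pr e` (`tr1_val` or `tt1_get` for the values), `eqn_of_rc`. -/
theorem eqn_get_iff [Fintype α] {e f x y : P} {k J : ℕ} (hp : S.pr f = S.pr e)
    (hx : (it S.hh k [e])[J]? = some x) (hy : (it S.hh k [f])[J]? = some y) :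
    S.Eqn x y ↔ S.Eqn e f := by
  have hJ : J < (it S.h k [S.pr e]).length := by
    rw [← S.tr2_len (e := e) rfl]
    exact tr2_lt hx
  obtain ⟨b, hb⟩ := tr3_get hJ
  have hpx : S.pr x = b := S.tr2_pr rfl hb hx
  have hpy : S.pr y = b := S.tr2_pr hp hb hy
  obtain ⟨l, hl⟩ := S.rc_level
  obtain ⟨J', hr⟩ := hl b
  obtain ⟨x', hx'⟩ := S.tr2_some hpx hr.1
  obtain ⟨y', hy'⟩ := S.tr2_some hpy hr.1
  have hrc := RC.pre S hb hr
  have h6 := S.tr2_get rfl hx hb hr.1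
  rw [hx'] at h6
  have h7 := S.tr2_get hp hy hb hr.1
  rw [hy'] at h7
  have hrx : S.RC (S.pr x) l J' := by rw [hpx]; exact hr
  constructor
  · intro h1
    exact S.eqn_of_rc hp hrc h6 h7 (h1.2 l J' hrx x' y' hx' hy')
  · intro h1
    exact S.eqn_of_rc (hpy.trans hpx.symm) hrx hx' hy' (h1.2 _ _ hrc x' y' h6 h7)

/-- A minimal image meets every class.  Proof: `MI.select`, `eqn_of_rc`, `Ar.refl`. -/
theorem MI.class [Fintype α] {a : α} {I : Finset P} (hI : S.MI a I) {e : P} (he : S.pr e = a) :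
    ∃ f ∈ I, S.Eqn e f := by
  obtain ⟨K, hK⟩ := S.rc_level
  obtain ⟨J, hr⟩ := hK a
  obtain ⟨f, hf, h1⟩ := MI.select S hI hr he
  obtain ⟨x, hx⟩ := S.tr2_some he hr.1
  rw [hx] at h1
  have hr' : S.RC (S.pr e) K J := by rw [he]; exact hr
  exact ⟨f, hf, S.eqn_of_rc ((MI.pr_eq S hI hf).trans he.symm) hr' hx h1 (Ar.refl S x)⟩

/-- Proof: `rc_level`, `Ar.push`, `eqn_of_rc`. -/
theorem Ar.eqn [Fintype α] {a : α} {I : Finset P} (hI : S.MI a I) {e f : P} (he : e ∈ I) (hf : f ∈ I)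
    (h1 : S.Ar e f) : S.Eqn e f := by
  have hpe := MI.pr_eq S hI he
  have hpf := MI.pr_eq S hI hf
  obtain ⟨K, hK⟩ := S.rc_level
  obtain ⟨J, hr⟩ := hK a
  obtain ⟨x, hx⟩ := S.tr2_some hpe hr.1
  obtain ⟨y, hy⟩ := S.tr2_some hpf hr.1
  have hr' : S.RC (S.pr e) K J := by rw [hpe]; exact hr
  exact S.eqn_of_rc (hpf.trans hpe.symm) hr' hx hy (Ar.push S hI he hf h1 hx hy)

end D0L.TN
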