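import Pool.Agent.H.MP_374efc_lc.Pn.Tu3b

/-!
# MP_374efc_lc, P1: the stable submonoid

Paper proof: /team-store/h22_374efc_P1.md
-/

set_option autoImplicit false

namespace D0L.TN

variable {α P T : Type} [Fintype P] [Nonempty α] [Fintype T] (S : TN α P T)

omit [Fintype P] [Nonempty α] [Fintype T] in
/-- The first element of a product of tokens is a token start. -/
theorem gs1a_head {z : List T} {e : P} (h : (app S.tk z).head? = some e) : S.St e := by
  cases z with
  | nil => simp [app_nil] at h
  | cons t z =>
    rw [app_cons] at h
    cases ht : S.tk t with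
    | nil => exact absurd ht (S.tkne t)
    | cons a v =>
      rw [ht] at h
      have h2 : a = e := by simpa using h
      subst h2
      exact ⟨t, v, ht⟩

omit [Fintype P] [Nonempty α] [Fintype T] in
/-- The last element of a product of tokens is a token end. -/
theorem gs1a_last (z : List T) : ∀ {e : P}, (app S.tk z).getLast? = some e → S.En e := by
  induction z with
  | nil => intro e h; simp [app_nil] at h
  | cons t z ih =>
    intro e h
    rw [app_cons, List.getLast?_append] at h
    cases hz : (app S.tk z).getLast? with
    | some x =>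
      rw [hz] at h
      have h2 : x = e := by simpa using h
      subst h2
      exact ih hz
    | none =>
      rw [hz] at h
      have h3 : (S.tk t).getLast? = some e := by simpa using h
      obtain ⟨v, hv⟩ := List.getLast?_eq_some_iff.1 h3
      exact ⟨t, v, hv⟩

omit [Fintype P] [Nonempty α] [Fintype T] in
/-- A token end followed by a token start is a tile word. -/
theorem gs1a_junction {s s' : P} (h : S.En s) (h' : S.St s') : S.Tile [s, s'] := by
  obtain ⟨t, v, ht⟩ := h
  obtain ⟨t', v', ht'⟩ := h'
  refine ⟨[t, t'], v, v', ?_⟩
  rw [app_cons, app_cons, app_nil, ht, ht']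
  simp

omit [Nonempty α] [Fintype T] in
theorem GG.nil : S.GG [] := by
  refine ⟨[], rfl, ?_, ?_, ?_⟩
  · intro e h; simp at h
  · intro e h; simp at h
  · intro A e f B h
    have := congrArg List.length h
    simp at this

/-- Products of tokens.  Proof: `E = app tk z`, all neighbours form tile pairs, `Eqn.refl`. -/
theorem GG.tk [Fintype α] (z : List T) : S.GG (S.W z) := by
  refine ⟨app S.tk z, rfl, ?_, ?_, ?_⟩
  · intro e h
    exact ⟨e, S.gs1a_head h, Eqn.refl S e⟩
  · intro e h
    exact ⟨e, S.gs1a_last z h, Eqn.refl S e⟩
  · intro A e f B h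
    refine ⟨e, f, ⟨z, A, B, ?_⟩, Eqn.refl S e, Eqn.refl S f⟩
    rw [h]
    simp

omit [Nonempty α] [Fintype T] in
/-- Proof: concatenate the paths; the junction is `En s`, `St s'`, and `[s, s']` is a tile word. -/
theorem GG.mul [Fintype α] {u v : List α} (h1 : S.GG u) (h2 : S.GG v) : S.GG (u ++ v) := by
  obtain ⟨E, hE, hs, he, hn⟩ := h1
  obtain ⟨F, hF, hs', he', hn'⟩ := h2
  refine ⟨E ++ F, by rw [List.map_append, hE, hF], ?_, ?_, ?_⟩
  · intro e h
    rw [List.head?_append] at h
    cases hh : E.head? with
    | some x =>
      rw [hh] at h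
      have h2 : x = e := by simpa using h
      subst h2
      exact hs x hh
    | none =>
      rw [hh] at h
      exact hs' e (by simpa using h)
  · intro e h
    rw [List.getLast?_append] at h
    cases hh : F.getLast? with
    | some x =>
      rw [hh] at h
      have h2 : x = e := by simpa using h
      subst h2
      exact he' x hh
    | none =>
      rw [hh] at h
      exact he e (by simpa using h)
  · intro A e f B h
    rcases List.append_eq_append_iff.1 h with ⟨A', h3, h4⟩ | ⟨C, h3, h4⟩
    · exact hn' A' e f B h4
    · rcases C with _ | ⟨c, _ | ⟨c', C⟩⟩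
      · exact hn' [] e f B (by simpa using h4.symm)
      · have h5 : e = c ∧ f :: B = F := by simpa using h4
        obtain ⟨rfl, h6⟩ := h5
        obtain ⟨s, hs1, hs2⟩ := he e (by rw [h3]; simp)
        obtain ⟨s', hs3, hs4⟩ := hs' f (by rw [← h6]; simp)
        exact ⟨s, s', S.gs1a_junction hs1 hs3, hs2, hs4⟩
      · have h5 : e = c ∧ f = c' ∧ B = C ++ F := by simpa using h4
        obtain ⟨rfl, rfl, _⟩ := h5
        exact hn A e f C h3

end D0L.TN
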