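import Pool.Agent.H.MP_374efc_lc.Pn.Gs1a

/-!
# MP_374efc_lc, P1: the stable submonoid

Paper proof: /team-store/h22_374efc_P1.md
-/

set_option autoImplicit false

namespace D0L.TN

variable {α P T : Type} [Fintype P] [Nonempty α] [Fintype T] (S : TN α P T)

omit [Fintype P] [Nonempty α] [Fintype T] in
/-- A list around two neighbours. -/
theorem gs1b_split {E : List P} {i : ℕ} {e f : P} (he : E[i]? = some e)
    (hf : E[i + 1]? = some f) : E = E.take i ++ e :: f :: E.drop (i + 2) := by
  obtain ⟨h1, h2⟩ := List.getElem?_eq_some_iff.1 he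
  obtain ⟨h3, h4⟩ := List.getElem?_eq_some_iff.1 hf
  calc E = E.take i ++ E.drop i := (List.take_append_drop i E).symm
    _ = _ := by
      rw [List.drop_eq_getElem_cons h1, List.drop_eq_getElem_cons h3, h2, h4]

/-- Two paths over the same word with token starts in front are equivalent everywhere.  Proof: induction on the position, `st_eqn`, `nx_right`. -/
theorem path_unique [Fintype α] {E E' : List P} (hE : ∀ A e f B, E = A ++ e :: f :: B → S.Nx e f)
    (hE' : ∀ A e f B, E' = A ++ e :: f :: B → S.Nx e f)
    (h1 : ∀ e, E.head? = some e → ∃ s, S.St s ∧ S.Eqn e s)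
    (h2 : ∀ e, E'.head? = some e → ∃ s, S.St s ∧ S.Eqn e s) {i : ℕ} {e e' : P}
    (hp : ∀ j ≤ i, ∀ x x', E[j]? = some x → E'[j]? = some x' → S.pr x' = S.pr x)
    (he : E[i]? = some e) (he' : E'[i]? = some e') : S.Eqn e e' := by
  induction i generalizing e e' with
  | zero =>
    obtain ⟨s, hs, hs'⟩ := h1 e (by rw [List.head?_eq_getElem?]; exact he)
    obtain ⟨s', hs1, hs1'⟩ := h2 e' (by rw [List.head?_eq_getElem?]; exact he')
    have hpe := hp 0 le_rfl e e' he he'
    have h3 : S.pr s' = S.pr s := by rw [hs'.1, hs1'.1, hpe]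
    exact Eqn.trans S (Eqn.trans S hs' (st_eqn S h3 hs hs1)) (Eqn.symm S hs1')
  | succ i ih =>
    have hl : i < E.length := lt_trans (Nat.lt_succ_self i) (List.getElem?_eq_some_iff.1 he).1
    have hl' : i < E'.length := lt_trans (Nat.lt_succ_self i) (List.getElem?_eq_some_iff.1 he').1
    have hx : E[i]? = some E[i] := List.getElem?_eq_getElem hl
    have hx' : E'[i]? = some E'[i] := List.getElem?_eq_getElem hl'
    have h3 := ih (fun j hj => hp j (hj.trans (Nat.le_succ i))) hx hx'
    exact nx_right S (hE _ _ _ _ (gs1b_split hx he)) (hE' _ _ _ _ (gs1b_split hx' he')) h3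
      (hp (i + 1) le_rfl e e' he he')

omit [Fintype P] [Nonempty α] [Fintype T] in
/-- A token end followed by a token start is a tile word. -/
theorem gs1b_tile {x y : P} (hx : S.En x) (hy : S.St y) : S.Tile [x, y] := by
  obtain ⟨t, v, ht⟩ := hx
  obtain ⟨t', v', ht'⟩ := hy
  refine ⟨[t, t'], v, v', ?_⟩
  simp [app, ht, ht']

/-- **Stability.**  Proof: `u = []` or `w = []` trivial.  `E` path over `u ++ w`, `E1` path over `u`, `E2` path over `w ++ v`.  The last element of `E1` is equivalent to a token
end, so is `E[|u| - 1]` (`path_unique`).  The first element of `E2` is equivalent to a token start `s` with the letter `w[0]`.  `[last, s]` is a tile pair, so `Nx E[|u|-1] s`, hence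
`E[|u|]` is equivalent to `s` (`nx_right`).  `E.drop |u|` is a path over `w`. -/
theorem GG.stable [Fintype α] {u v w : List α} (h1 : S.GG u) (h2 : S.GG (u ++ w))
    (h3 : S.GG (w ++ v)) : S.GG w := by
  rcases eq_or_ne w [] with hw | hw
  · rw [hw]
    exact GG.nil S
  rcases eq_or_ne u [] with hu | hu
  · rw [hu, List.nil_append] at h2
    exact h2
  obtain ⟨E1, m1, s1, l1, p1⟩ := h1
  obtain ⟨E, m, s, l, p⟩ := h2
  obtain ⟨E2, m2, s2, l2, p2⟩ := h3
  have hlen : E.length = u.length + w.length := by
    rw [← List.length_map (f := S.pr), m, List.length_append]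
  have hlen1 : E1.length = u.length := by
    rw [← List.length_map (f := S.pr), m1]
  have hupos : 0 < u.length := List.length_pos_iff.2 hu
  have hwpos : 0 < w.length := List.length_pos_iff.2 hw
  obtain ⟨n, hn⟩ : ∃ n, u.length = n + 1 := ⟨u.length - 1, by omega⟩
  have hdr : (E.drop u.length).map S.pr = w := by
    rw [List.map_drop, m, List.drop_left]
  refine ⟨E.drop u.length, hdr, ?_, ?_, ?_⟩
  · intro e he
    have he1 : E[n + 1]? = some e := by
      rw [List.head?_drop, hn] at he
      exact he
    have hx : E[n]? = some (E[n]'(by omega)) := List.getElem?_eq_getElem (by omega)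
    obtain ⟨x, hxe⟩ : ∃ x, x = (E[n]'(by omega)) := ⟨_, rfl⟩
    rw [← hxe] at hx
    have hy : E1[n]? = some (E1[n]'(by omega)) := List.getElem?_eq_getElem (by omega)
    obtain ⟨y, hye⟩ : ∃ y, y = (E1[n]'(by omega)) := ⟨_, rfl⟩
    rw [← hye] at hy
    obtain ⟨t0, ht0, ht0'⟩ := l1 y (by
      rw [List.getLast?_eq_getElem?, hlen1, hn, Nat.add_sub_cancel]
      exact hy)
    have hxy : S.Eqn x y := by
      refine path_unique S p p1 s s1 (i := n) ?_ hx hy
      intro j hj a b ha hb
      have e1 : (u ++ w)[j]? = some (S.pr a) := by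
        rw [← m, List.getElem?_map, ha]
        rfl
      have e2 : u[j]? = some (S.pr b) := by
        rw [← m1, List.getElem?_map, hb]
        rfl
      rw [List.getElem?_append_left (by omega), e2] at e1
      exact Option.some.inj e1
    have hxt : S.Eqn x t0 := Eqn.trans S hxy ht0'
    obtain ⟨c, w', hc⟩ : ∃ c w', w = c :: w' := List.exists_cons_of_ne_nil hw
    have hE2 : ∃ z, E2.head? = some z ∧ S.pr z = c := by
      cases hE : E2 with
      | nil =>
        rw [hE, hc] at m2
        simp at m2
      | cons z Z =>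
        refine ⟨z, rfl, ?_⟩
        rw [hE, hc, List.map_cons, List.cons_append] at m2
        exact (List.cons.inj m2).1
    obtain ⟨z, hz, hzc⟩ := hE2
    obtain ⟨r, hr, hr'⟩ := s2 z hz
    have hec : S.pr e = c := by
      have e1 : (u ++ w)[n + 1]? = some (S.pr e) := by
        rw [← m, List.getElem?_map, he1]
        rfl
      rw [List.getElem?_append_right (by omega), hn, Nat.sub_self, hc] at e1
      exact (Option.some.inj e1).symm
    have hnx : S.Nx x r := ⟨t0, r, gs1b_tile S ht0 hr, hxt, Eqn.refl S r⟩
    refine ⟨r, hr, nx_right S (p _ _ _ _ (gs1b_split hx he1)) hnx (Eqn.refl S x) ?_⟩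
    rw [hr'.1, hzc, hec]
  · intro e he
    refine l e ?_
    rw [List.getLast?_drop, if_neg (by omega)] at he
    exact he
  · intro A e f B hAB
    refine p (E.take u.length ++ A) e f B ?_
    rw [List.append_assoc, ← hAB, List.take_append_drop]

end D0L.TN
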