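import Pool.Agent.H.MP_374efc_lc.Pn.Eq2

/-!
# MP_374efc_lc, P1: neighbours of equivalent elements

Paper proof: /team-store/h22_374efc_P1.md
-/

set_option autoImplicit false

namespace D0L.TN

variable {α P T : Type} [Fintype P] [Nonempty α] [Fintype T] (S : TN α P T)

theorem tu1a_left {β : Type} {X Y : List β} {a b : ℕ} (h : a ≤ b) (hb : b ≤ X.length) :
    ((X ++ Y).drop a).take (b - a) = (X.drop a).take (b - a) := by
  rw [List.drop_append_of_le_length (h.trans hb), List.take_append_of_le_length]
  rw [List.length_drop]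
  omega

theorem tu1a_right {β : Type} {X Y : List β} {a b : ℕ} :
    ((X ++ Y).drop (X.length + a)).take b = (Y.drop a).take b := by
  rw [List.drop_append, List.drop_eq_nil_of_le (by omega), List.nil_append]
  congr 2
  omega

theorem tu1a_split {β : Type} (L : List β) {a b c : ℕ} (h : a ≤ b) (h' : b ≤ c) :
    (L.drop a).take (c - a) = (L.drop a).take (b - a) ++ (L.drop b).take (c - b) := by
  have h1 : c - a = (b - a) + (c - b) := by omega
  rw [h1, List.take_add, List.drop_drop]
  have h2 : a + (b - a) = b := by omega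
  rw [h2]

omit [Fintype P] [Nonempty α] [Fintype T] in
theorem tu1a_W (z z' : List T) : S.W (z ++ z') = S.W z ++ S.W z' := by
  unfold W
  rw [app_append, List.map_append]

omit [Fintype P] [Nonempty α] [Fintype T] in
theorem tu1a_lt {e : P} {k v : ℕ} {x : P} (h : (it S.hh k [e])[v]? = some x) :
    v < (it S.h k [S.pr e]).length := by
  have h1 := (List.getElem?_eq_some_iff.1 h).1
  rwa [S.length_it, List.map_cons, List.map_nil] at h1

omit [Fintype P] [Nonempty α] [Fintype T] in
theorem tu1a_pr {e : P} {k v : ℕ} {x : P} (h : (it S.hh k [e])[v]? = some x) :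
    (it S.h k [S.pr e])[v]? = some (S.pr x) := by
  have h1 : it S.h k [S.pr e] = (it S.hh k [e]).map S.pr := by
    rw [S.map_it, List.map_cons, List.map_nil]
  rw [h1, List.getElem?_map, h, Option.map_some]

/-- Crossing a boundary along a tile pair.  `(it hh k [g])[J] = e`, `e → e'`, `[e', f']` a tile word, `f' → f1`, `(it hh k [x])[J + 1] = f1`: then `g → x`.
Proof: level `l` for both arrows; at the level `l + k`: in the block of `J` switch from the thread of `g` to `it hh l [e']`, follow the tile word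
`it hh l [e', f']` (`Tile.it`, `seg_get`) over the end of the block, in the block of `J + 1` switch from `it hh l [f']` to the thread of `x`. -/
theorem Ar.cross {g x e e' f' f1 : P} {k J : ℕ} (hgx : S.pr x = S.pr g)
    (he : (it S.hh k [g])[J]? = some e) (h1 : S.Ar e e') (ht : S.Tile [e', f'])
    (h2 : S.Ar f' f1) (hf : (it S.hh k [x])[J + 1]? = some f1) : S.Ar g x := by
  obtain ⟨K1, hK1⟩ := Ar.level S h1
  obtain ⟨K2, hK2⟩ := Ar.level S h2
  obtain ⟨l, hl1, hl2⟩ : ∃ l, K1 ≤ l ∧ K2 ≤ l := ⟨max K1 K2, le_max_left _ _, le_max_right _ _⟩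
  obtain ⟨v1, v1', hv1, ⟨X1, hX1, sX1⟩, ⟨Y1, hY1, sY1⟩, z1, hz1⟩ := hK1 l hl1
  obtain ⟨v2, v2', hv2, ⟨X2, hX2, sX2⟩, ⟨Y2, hY2, sY2⟩, z2, hz2⟩ := hK2 l hl2
  have hpe : S.pr e' = S.pr e := h1.1
  have hpf : S.pr f1 = S.pr f' := h2.1
  -- lengths of the blocks
  have l1 : v1' < (it S.h l [S.pr e]).length := by
    have := S.tu1a_lt hY1
    rwa [hpe] at this
  have l2 : v2' < (it S.h l [S.pr f1]).length := S.tu1a_lt hY2
  have l3 : (it S.hh l [e']).length = (it S.h l [S.pr e]).length := by
    rw [S.length_it, List.map_cons, List.map_nil, hpe]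
  -- the tile word
  have hV : S.Tile (it S.hh l [e'] ++ it S.hh l [f']) := by
    have h3 := Tile.it S ht l
    have h4 : it S.hh l [e', f'] = it S.hh l [e'] ++ it S.hh l [f'] := by
      rw [← it_append]
      rfl
    rwa [h4] at h3
  have g1 : (it S.hh l [e'] ++ it S.hh l [f'])[v1']? = some Y1 := by
    rw [List.getElem?_append_left (by rw [l3]; exact l1)]
    exact hY1
  have g2 : (it S.hh l [e'] ++ it S.hh l [f'])[(it S.h l [S.pr e]).length + v2]? = some X2 := by
    rw [← l3, List.getElem?_append_right (by omega), Nat.add_sub_cancel_left]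
    exact hX2
  obtain ⟨z, hz⟩ := S.seg_get hV g1 g2 sY1 sX2 (by omega)
  have hz' : ((it S.h l [S.pr e] ++ it S.h l [S.pr f1]).drop v1').take
      ((it S.h l [S.pr e]).length + v2 - v1') = S.W z := by
    unfold W
    rw [← hz, List.map_take, List.map_drop, List.map_append, S.map_it, S.map_it, List.map_cons,
      List.map_nil, List.map_cons, List.map_nil, hpe, hpf]
  -- the letters
  have w1 := S.tu1a_pr he
  have w2 := S.tu1a_pr hf
  rw [hgx] at w2
  have hw : it S.h k [S.pr g] = (it S.h k [S.pr g]).take J ++ ([S.pr e] ++ ([S.pr f1] ++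
      (it S.h k [S.pr g]).drop (J + 1 + 1))) := by
    obtain ⟨a1, a2⟩ := List.getElem?_eq_some_iff.1 w1
    obtain ⟨b1, b2⟩ := List.getElem?_eq_some_iff.1 w2
    have h3 : (it S.h k [S.pr g]).drop (J + 1) =
        S.pr f1 :: (it S.h k [S.pr g]).drop (J + 1 + 1) := by
      rw [← b2]
      exact List.drop_eq_getElem_cons b1
    have h4 : (it S.h k [S.pr g]).drop J = S.pr e :: (it S.h k [S.pr g]).drop (J + 1) := by
      rw [← a2]
      exact List.drop_eq_getElem_cons a1
    rw [List.singleton_append, List.singleton_append, ← h3, ← h4, List.take_append_drop]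
  have hW : it S.h (l + k) [S.pr g] = it S.h l ((it S.h k [S.pr g]).take J) ++
      (it S.h l [S.pr e] ++ (it S.h l [S.pr f1] ++
        it S.h l ((it S.h k [S.pr g]).drop (J + 1 + 1)))) := by
    rw [it_add]
    conv_lhs => rw [hw]
    rw [it_append, it_append, it_append]
  have hlen : (it S.h l ((it S.h k [S.pr g]).take (J + 1))).length =
      (it S.h l ((it S.h k [S.pr g]).take J)).length + (it S.h l [S.pr e]).length := by
    have h3 : (it S.h k [S.pr g]).take (J + 1) = (it S.h k [S.pr g]).take J ++ [S.pr e] := by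
      rw [List.take_add_one, w1]
      rfl
    rw [h3, it_append, List.length_append]
  have p1 := S.tt1_get he w1 (k := l) (J := v1) (by omega)
  have p2 := S.tt1_get hf (by rw [hgx]; exact w2) (k := l) (J := v2') l2
  rw [hgx, hlen] at p2
  refine ⟨hgx, l + k, (it S.h l ((it S.h k [S.pr g]).take J)).length + v1,
    (it S.h l ((it S.h k [S.pr g]).take J)).length + (it S.h l [S.pr e]).length + v2', by omega,
    ⟨X1, by rw [p1]; exact hX1, sX1⟩, ⟨Y2, by rw [p2]; exact hY2, sY2⟩, z1 ++ (z ++ z2), ?_⟩
  have e1 : (it S.h l ((it S.h k [S.pr g]).take J)).length + (it S.h l [S.pr e]).length + v2' -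
      ((it S.h l ((it S.h k [S.pr g]).take J)).length + v1) =
      (it S.h l [S.pr e]).length + v2' - v1 := by omega
  rw [hW, e1, tu1a_right, tu1a_split _ hv1 (by omega),
    tu1a_split _ (a := v1') (b := (it S.h l [S.pr e]).length + v2) (by omega) (by omega)]
  rw [tu1a_left hv1 l1.le, hz1, S.tu1a_W, S.tu1a_W]
  congr 1
  congr 1
  · rw [← List.append_assoc, tu1a_left (by omega) (by rw [List.length_append]; omega), hz']
  · have e2 : (it S.h l [S.pr e]).length + v2' - ((it S.h l [S.pr e]).length + v2) = v2' - v2 := by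
      omega
    rw [tu1a_right, e2, tu1a_left hv2 l2.le, hpf, hz2]

end D0L.TN
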