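import Pool.Agent.H.MP_374efc_lc.Pn.Tu1a

/-!
# MP_374efc_lc, P1: neighbours of equivalent elements

Paper proof: /team-store/h22_374efc_P1.md
-/

set_option autoImplicit false

namespace D0L.TN

variable {α P T : Type} [Fintype P] [Nonempty α] [Fintype T] (S : TN α P T)

omit [Fintype P] [Nonempty α] [Fintype T] in
theorem tu1b_adj {e f : P} (h1 : S.Adj e f) : ∃ g k J, (it S.hh k [g])[J]? = some e ∧
    (it S.hh k [g])[J + 1]? = some f := by
  obtain ⟨g, k, A, B, h⟩ := h1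
  refine ⟨g, k, A.length, ?_, ?_⟩
  · rw [h, List.getElem?_append_right le_rfl, Nat.sub_self]
    rfl
  · rw [h, List.getElem?_append_right (by omega), Nat.add_sub_cancel_left]
    rfl

/-- The minimal image over the letter of the position `J`, with the threads of the elements of `I`. -/
theorem tu1b_class [Fintype α] {a : α} {I : Finset P} (hI : S.MI a I) {k J : ℕ} {g y y' : P}
    (hg : g ∈ I) (hy : (it S.hh k [g])[J]? = some y) (hp : S.pr y' = S.pr y) :
    ∃ I' : Finset P, S.MI (S.pr y) I' ∧ y ∈ I' ∧ ∃ x ∈ I, ∃ y1 ∈ I',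
      (it S.hh k [x])[J]? = some y1 ∧ S.Eqn y' y1 := by
  have hpg : S.pr g = a := MI.pr_eq S hI hg
  have hb : (it S.h k [a])[J]? = some (S.pr y) := by
    have h1 : it S.h k [a] = (it S.hh k [g]).map S.pr := by
      rw [S.map_it, List.map_cons, List.map_nil, hpg]
    rw [h1, List.getElem?_map, hy, Option.map_some]
  obtain ⟨I', hI', h2, h3, -⟩ := MI.push S hI hb
  obtain ⟨y0, hy0, h4⟩ := h3 g hg
  rw [hy, Option.some.injEq] at h4
  obtain ⟨y1, hy1, h5⟩ := MI.class S hI' hp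
  obtain ⟨x, hx, h6⟩ := h2 y1 hy1
  exact ⟨I', hI', h4 ▸ hy0, x, hx, y1, hy1, h6, h5⟩

/-- Proof.  `it hh k [g] = A ++ e :: f :: B`.  `I` a minimal image over `pr g` with `g ∈ I`; `MI.push` at the position `|A| + 1`, `MI.class`: some `x ∈ I` has there an element
`f1` equivalent to `f'`.  `Ar.cross` (arrows `e → e'`, `f' → f1` by `Eqn.ar`) gives `Ar g x`, `Ar.push`: `Ar f f1`; `f`, `f1` are in a minimal image, so `Eqn f f1` (`Ar.eqn`), `Eqn f f'`. -/
theorem tau_right [Fintype α] {e f e' f' : P} (h1 : S.Adj e f) (h2 : S.Tile [e', f'])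
    (hp : S.pr f' = S.pr f) (he : S.Eqn e e') : S.Eqn f f' := by
  obtain ⟨g, k, J, h3, h4⟩ := S.tu1b_adj h1
  obtain ⟨I, hI, hg⟩ := MI.exists_mem S g
  obtain ⟨I', hI', hf, x, hx, f1, hf1, h5, h6⟩ := S.tu1b_class hI hg h4 hp
  have hpx : S.pr x = S.pr g := MI.pr_eq S hI hx
  have h7 : S.Ar g x := Ar.cross S hpx h3 (Eqn.ar S he) h2 (Eqn.ar S h6) h5
  have h8 : S.Ar f f1 := Ar.push S hI hg hx h7 h4 h5
  exact Eqn.trans S (Ar.eqn S hI' hf hf1 h8) (Eqn.symm S h6)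

/-- Proof.  As `tau_right`: `x ∈ I` with an element `e1` equivalent to `e'` at `|A|`; `Ar.cross` from `x` to `g` (arrows `e1 → e'`, `f' → f`). -/
theorem tau_left [Fintype α] {e f e' f' : P} (h1 : S.Adj e f) (h2 : S.Tile [e', f'])
    (hp : S.pr e' = S.pr e) (hf : S.Eqn f f') : S.Eqn e e' := by
  obtain ⟨g, k, J, h3, h4⟩ := S.tu1b_adj h1
  obtain ⟨I, hI, hg⟩ := MI.exists_mem S g
  obtain ⟨I', hI', he, x, hx, e1, he1, h5, h6⟩ := S.tu1b_class hI hg h3 hp
  have hpx : S.pr g = S.pr x := (MI.pr_eq S hI hx).symm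
  have h7 : S.Ar x g := Ar.cross S hpx h5 (Eqn.ar S (Eqn.symm S h6)) h2
    (Eqn.ar S (Eqn.symm S hf)) h4
  have h8 : S.Ar e1 e := Ar.push S hI hx hg h7 h5 h3
  exact Eqn.trans S (Eqn.symm S (Ar.eqn S hI' he1 he h8)) (Eqn.symm S h6)

end D0L.TN
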