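import Pool.Agent.H.MP_374efc_lc.Pn.Eq2

/-!
# MP_374efc_lc, P1: token starts with the same letter are equivalent, token ends too

Paper proof: /team-store/h22_374efc_P1.md
-/

set_option autoImplicit false

namespace D0L.TN

variable {α P T : Type} [Fintype P] [Nonempty α] [Fintype T] (S : TN α P T)

omit [Fintype P] [Nonempty α] [Fintype T] in
theorem tu2a_W_append (z1 z2 : List T) : S.W (z1 ++ z2) = S.W z1 ++ S.W z2 := by
  unfold W
  rw [app_append, List.map_append]

omit [Fintype P] [Nonempty α] [Fintype T] in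
theorem tu2a_start {e : P} (he : S.St e) (k : ℕ) :
    ∃ x, (it S.hh k [e])[0]? = some x ∧ S.St x := by
  obtain ⟨x, V, hx, sx⟩ := S.st_it he k
  exact ⟨x, by rw [hx]; rfl, sx⟩

/-- Proof.  `I` a minimal image over `pr e` with `e ∈ I`, `f ∈ I` with `Eqn e' f` (`MI.class`), so `Ar e' f` (`Eqn.ar`): `SwAt k e' f v v'`.  `e`, `e'` are token starts, so
`it hh k [e]`, `it hh k [e']` have token starts at `0` (`st_it`), the letters before `v` are a product of tokens (`seg_get` for `it hh k [e']`), hence `SwAt k e f 0 v'`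
and `Ar e f`.  `Ar.eqn`: `Eqn e f`, `Eqn e e'`. -/
theorem st_eqn [Fintype α] {e e' : P} (hp : S.pr e' = S.pr e) (he : S.St e) (he' : S.St e') :
    S.Eqn e e' := by
  obtain ⟨I, hI, heI⟩ := MI.exists_mem S e
  obtain ⟨f, hfI, hf⟩ := MI.class S hI hp
  obtain ⟨hpf, k, v, v', hvv, ⟨x, hx, sx⟩, hy, z, hz⟩ := Eqn.ar S hf
  obtain ⟨x0, hx0, sx0⟩ := S.tu2a_start he k
  obtain ⟨x1, hx1, sx1⟩ := S.tu2a_start he' k
  obtain ⟨z1, hz1⟩ := S.seg_get (S.tile_it k e') hx1 hx sx1 sx (Nat.zero_le v)
  have h1 : (it S.h k [S.pr e']).take v = S.W z1 := by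
    unfold W
    rw [← hz1, List.drop_zero, Nat.sub_zero, List.map_take, S.map_it]
    rfl
  have h2 : S.SwAt k e f 0 v' := by
    refine ⟨Nat.zero_le _, ⟨x0, hx0, sx0⟩, hy, z1 ++ z, ?_⟩
    rw [tu2a_W_append, ← h1, ← hz, List.drop_zero, Nat.sub_zero, ← hp]
    have h3 : v' = v + (v' - v) := by omega
    have h4 : (it S.h k [S.pr e']).take (v + (v' - v)) =
        (it S.h k [S.pr e']).take v ++ ((it S.h k [S.pr e']).drop v).take (v' - v) :=
      List.take_add
    rw [← h4, ← h3]
  have h3 : S.Ar e f := ⟨by rw [hpf, hp], k, 0, v', h2⟩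
  exact Eqn.trans S (Ar.eqn S hI heI hfI h3) (Eqn.symm S hf)

omit [Fintype P] [Nonempty α] [Fintype T] in
/-- The last element of a nonempty product of tokens is a token end. -/
theorem tu2a_last {z : List T} {A : List P} {x : P} (hz : app S.tk z = A ++ [x]) : S.En x := by
  rcases List.eq_nil_or_concat z with h1 | ⟨z0, t, h1⟩
  · rw [h1, app_nil] at hz
    have h2 := congrArg List.length hz
    simp at h2
  · rw [List.concat_eq_append] at h1
    rw [h1, app_append, app_singleton] at hz
    rcases List.eq_nil_or_concat (S.tk t) with h2 | ⟨v, y, h2⟩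
    · exact absurd h2 (S.tkne t)
    · rw [List.concat_eq_append] at h2
      rw [h2, ← List.append_assoc] at hz
      have h3 := List.append_inj_right' hz rfl
      have h4 : y = x := by simpa using h3
      exact ⟨t, v, by rw [h2, h4]⟩

omit [Fintype P] [Nonempty α] [Fintype T] in
/-- The first element of a nonempty product of tokens is a token start. -/
theorem tu2a_first {z : List T} {A : List P} {x : P} (hz : app S.tk z = x :: A) : S.St x := by
  cases z with
  | nil =>
    rw [app_nil] at hz
    exact absurd hz (by simp)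
  | cons t z =>
    obtain ⟨y, v, h1⟩ := List.exists_cons_of_ne_nil (S.tkne t)
    rw [app_cons, h1, List.cons_append] at hz
    have h2 : y = x := (List.cons.inj hz).1
    exact ⟨t, v, by rw [h1, h2]⟩

omit [Fintype P] [Nonempty α] [Fintype T] in
/-- Token ends are token boundaries. -/
theorem tu2a_bdend {z : List T} {A B : List P} {x : P} (hz : app S.tk z = A ++ x :: B)
    (hx : S.En x) : ∃ z1 z2, z = z1 ++ z2 ∧ A ++ [x] = app S.tk z1 ∧ B = app S.tk z2 := by
  induction z generalizing A with
  | nil =>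
    rw [app_nil] at hz
    have h1 := congrArg List.length hz
    simp at h1
  | cons t z ih =>
    rw [app_cons] at hz
    rcases List.append_eq_append_iff.1 hz with ⟨A', h1, h2⟩ | ⟨C, h1, h2⟩
    · obtain ⟨z1, z2, h3, h4, h5⟩ := ih h2
      refine ⟨t :: z1, z2, by rw [h3, List.cons_append], ?_, h5⟩
      rw [h1, app_cons, List.append_assoc, h4]
    · cases C with
      | nil =>
        obtain ⟨z1, z2, h3, h4, h5⟩ := ih (A := []) (by simpa using h2.symm)
        refine ⟨t :: z1, z2, by rw [h3, List.cons_append], ?_, h5⟩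
        have h6 : S.tk t = A := by rw [h1, List.append_nil]
        rw [app_cons, h6, ← h4]
        rfl
      | cons c C =>
        have h3 : x = c ∧ B = C ++ app S.tk z := by simpa using h2
        obtain ⟨rfl, h4⟩ := h3
        obtain ⟨t0, v0, h5⟩ := hx
        obtain ⟨_, h6, h7⟩ := S.uniq x t A C t0 v0 [] h1 h5
        refine ⟨[t], z, rfl, ?_, ?_⟩
        · rw [app_singleton, h1, h7]
        · rw [h4, h7, List.nil_append]

omit [Fintype P] [Nonempty α] [Fintype T] in
/-- The last element of the `hh`-image of a token end is a token end.  Proof: as `tn1_en` (file Fr/Tn1.lean), or from `app hh (tk t) = app tk (H t)`. -/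
theorem en_it {e : P} (he : S.En e) (k : ℕ) : ∃ V y, it S.hh k [e] = V ++ [y] ∧ S.En y := by
  obtain ⟨t, v, ht⟩ := he
  have h1 : it S.hh k [e] ≠ [] := by
    intro h2
    have h3 := S.length_it k [e]
    rw [h2] at h3
    have h4 := List.length_pos_of_ne_nil (S.tb2_it_ne (w := [e].map S.pr) (by simp) k)
    simp only [List.length_nil] at h3
    omega
  rcases List.eq_nil_or_concat (it S.hh k [e]) with h2 | ⟨V, y, h2⟩
  · exact absurd h2 h1
  · rw [List.concat_eq_append] at h2
    refine ⟨V, y, h2, ?_⟩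
    have h3 := S.it_tk k [t]
    rw [app_singleton, ht, it_append, h2, ← List.append_assoc] at h3
    exact S.tu2a_last h3.symm

omit [Fintype P] [Nonempty α] [Fintype T] in
/-- After a token end comes a token start in a tile word. -/
theorem st_of_en {A B : List P} {x y : P} (hV : S.Tile (A ++ x :: y :: B)) (hx : S.En x) : S.St y := by
  obtain ⟨z, s, e, h1⟩ := hV
  have h2 : app S.tk z = (s ++ A) ++ x :: (y :: B ++ e) := by
    rw [← h1]
    simp
  obtain ⟨z1, z2, _, _, h3⟩ := S.tu2a_bdend h2 hx
  exact S.tu2a_first h3.symm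

omit [Fintype P] [Nonempty α] [Fintype T] in
/-- Before a token start comes a token end in a tile word. -/
theorem en_of_st {A B : List P} {x y : P} (hV : S.Tile (A ++ x :: y :: B)) (hy : S.St y) : S.En x := by
  obtain ⟨z, s, e, h1⟩ := hV
  have h2 : app S.tk z = (s ++ A ++ [x]) ++ y :: (B ++ e) := by
    rw [← h1]
    simp
  obtain ⟨z1, z2, _, h3, _⟩ := S.boundary h2 hy
  exact S.tu2a_last h3.symm

omit [Fintype P] [Nonempty α] [Fintype T] in
/-- From a token start to the end of a tile word which ends with a token end there is a product of tokens. -/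
theorem seg_end {V W : List P} {v : ℕ} {x y : P} (hV : S.Tile V) (hVW : V = W ++ [y])
    (hy : S.En y) (hv : V[v]? = some x) (hx : S.St x) : ∃ z, V.drop v = app S.tk z := by
  obtain ⟨z, s, e, h1⟩ := hV
  have h2 : app S.tk z = (s ++ W) ++ y :: e := by
    rw [← h1, hVW]
    simp
  obtain ⟨z1, z2, _, h3, _⟩ := S.tu2a_bdend h2 hy
  obtain ⟨hl, hg⟩ := List.getElem?_eq_some_iff.1 hv
  have h4 : V.drop v = x :: V.drop (v + 1) := by
    rw [← hg]
    exact List.drop_eq_getElem_cons hl
  have h5 : app S.tk z1 = (s ++ V.take v) ++ x :: V.drop (v + 1) := by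
    rw [← h3, ← h4, List.append_assoc, List.append_assoc, List.take_append_drop, hVW]
  obtain ⟨z3, z4, _, _, h6⟩ := S.boundary h5 hx
  exact ⟨z4, by rw [h4, h6]⟩

end D0L.TN
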