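import Pool.Agent.H.MP_374efc_lc.Pn.Tu2a

/-!
# MP_374efc_lc, P1: token starts with the same letter are equivalent, token ends too

Paper proof: /team-store/h22_374efc_P1.md
-/

set_option autoImplicit false

namespace D0L.TN

variable {α P T : Type} [Fintype P] [Nonempty α] [Fintype T] (S : TN α P T)

theorem tu2b_split {β : Type} {V : List β} {J : ℕ} {x : β} (hx : V[J]? = some x)
    (hJ : J + 1 < V.length) : ∃ A g B, V = A ++ x :: g :: B ∧ A.length = J := by
  have h1 : J < V.length := by omega
  have e1 : V[J] = x := by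
    have := List.getElem?_eq_getElem h1
    rw [hx] at this
    exact (Option.some.inj this).symm
  refine ⟨V.take J, V[J + 1], V.drop (J + 2), ?_, ?_⟩
  · conv_lhs => rw [← List.take_append_drop J V]
    rw [List.drop_eq_getElem_cons h1, e1, List.drop_eq_getElem_cons hJ]
  · rw [List.length_take]
    omega

/-- Proof.  `I` a minimal image over `pr e`, `e ∈ I`, `f ∈ I` with `Eqn e' f`, so `Ar f e'` (`Eqn.symm`, `Eqn.ar`); `k0` with `2 ≤ |h^k0(b)|`, `J = 0`, `return_id`: a position
`(K, J1)`, `K = k' + k0`, with `(it hh K [x])[J1] = x` for all `x ∈ I` and `J1 + 1 < |h^K(b)|` (`J1` is in the block of the position `0` of `h^k0(b)`).  At the level `l + K`: in the block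
of `J1` the thread of `f` is `it hh l [f]`: switch to `it hh l [e']`, follow its tokens to the end of the block (`en_it`, `seg_end`); there the thread of `e` has
a token start (`e = it hh K [e]` at `J1` is a token end, `st_of_en`).  So `Ar f e`, `Ar.eqn`. -/
theorem en_eqn [Fintype α] {e e' : P} (hp : S.pr e' = S.pr e) (he : S.En e) (he' : S.En e') :
    S.Eqn e e' := by
  classical
  obtain ⟨I, hI, heI⟩ := MI.exists_mem S e
  obtain ⟨f, hfI, hef⟩ := MI.class S hI hp
  have hpf : S.pr f = S.pr e := MI.pr_eq S hI hfI
  have hAr : S.Ar f e' := Eqn.ar S (Eqn.symm S hef)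
  obtain ⟨k0, hk0⟩ := S.grow 2
  have hlen0 : 2 ≤ (it S.h k0 [S.pr e]).length := hk0 k0 le_rfl _
  obtain ⟨b', hb'⟩ : ∃ b', (it S.h k0 [S.pr e])[0]? = some b' :=
    ⟨_, List.getElem?_eq_getElem (by omega)⟩
  obtain ⟨k', J', hJ', hret⟩ := return_id S hI hb'
  have hid : ∀ x ∈ I, (it S.hh (k' + k0) [x])[J']? = some x := by
    intro x hx
    have hpx := MI.pr_eq S hI hx
    obtain ⟨y, hy⟩ := tr2_some S hpx (k := k0) (J := 0) (by omega)
    have h1 := hret x hx y hy
    have h2 := tr2_get S hpx hy hb' hJ'
    rw [List.take_zero, it_nil, List.length_nil, Nat.zero_add] at h2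
    rw [h2, h1]
  have hJK : J' + 1 < (it S.h (k' + k0) [S.pr e]).length := by
    rw [it_add]
    have hne : (it S.h k0 [S.pr e]) = b' :: (it S.h k0 [S.pr e]).drop 1 := by
      rcases hc : it S.h k0 [S.pr e] with _ | ⟨c0, r⟩
      · rw [hc] at hlen0
        simp at hlen0
      · rw [hc] at hb'
        simp only [List.getElem?_cons_zero, Option.some.injEq] at hb'
        rw [hb']
        rfl
    rw [hne]
    have e1 : it S.h k' (b' :: (it S.h k0 [S.pr e]).drop 1)
        = it S.h k' [b'] ++ it S.h k' ((it S.h k0 [S.pr e]).drop 1) := by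
      rw [← it_append]
      rfl
    rw [e1, List.length_append]
    have h3 : it S.h k' ((it S.h k0 [S.pr e]).drop 1) ≠ [] := by
      apply tb2_it_ne
      intro h0
      have := congrArg List.length h0
      rw [List.length_drop, List.length_nil] at this
      omega
    have h4 := List.length_pos_iff.2 h3
    omega
  set K := k' + k0 with hK
  have heK := hid e heI
  have hfK := hid f hfI
  have hlenK : (it S.hh K [e]).length = (it S.h K [S.pr e]).length := tr2_len S rfl K
  obtain ⟨A, g, B, hAB, hAl⟩ := tu2b_split heK (by rw [hlenK]; exact hJK)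
  have hmap : it S.h K [S.pr e] = A.map S.pr ++ (S.pr e :: S.pr g :: B.map S.pr) := by
    have h1 := map_it S K [e]
    rw [hAB] at h1
    simp only [List.map_append, List.map_cons, List.map_nil] at h1
    exact h1.symm
  have htake : (it S.h K [S.pr e]).take J' = A.map S.pr := by
    rw [hmap, List.take_append_of_le_length (by simp [hAl]), List.take_of_length_le (by simp [hAl])]
  have hbK : (it S.h K [S.pr e])[J']? = some (S.pr e) := by
    rw [hmap, List.getElem?_append_right (by simp [hAl])]
    simp [hAl]
  have hg : S.St g := by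
    have h1 : S.Tile (A ++ e :: g :: B) := by
      rw [← hAB]
      exact tile_it S K e
    exact st_of_en S h1 he
  obtain ⟨-, l, v, v', hvv, ⟨x, hx, hxs⟩, ⟨y, hy, hys⟩, z1, hz1⟩ := hAr
  have hn1 : (it S.hh l [e']).length = (it S.h l [S.pr e]).length := by
    rw [tr2_len S hp l]
  have hv'n : v' < (it S.h l [S.pr e]).length := by
    rw [← hn1]
    exact (List.getElem?_eq_some_iff.1 hy).1
  have hvn : v < (it S.h l [S.pr e]).length := by omega
  obtain ⟨V, ye, hV, hye⟩ := en_it S he' l
  obtain ⟨z2, hz2⟩ := seg_end S (tile_it S l e') hV hye hy hys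
  have hz2' : (it S.h l [S.pr e]).drop v' = S.W z2 := by
    have h1 : (it S.hh l [e']).map S.pr = it S.h l [S.pr e] := by
      have h2 := map_it S l [e']
      rw [h2]
      simp [hp]
    rw [← h1, ← List.map_drop, hz2]
    rfl
  have hz : (it S.h l [S.pr e]).drop v = S.W (z1 ++ z2) := by
    have h1 : S.W (z1 ++ z2) = S.W z1 ++ S.W z2 := by
      unfold W
      rw [app_append, List.map_append]
    rw [h1, ← hz1, ← hz2', hpf]
    have h2 : (it S.h l [S.pr e]).drop v' = ((it S.h l [S.pr e]).drop v).drop (v' - v) := by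
      rw [List.drop_drop]
      congr 1
      omega
    rw [h2, List.take_append_drop]
  have hp1 : (it S.hh l A).length = (it S.h l ((it S.h K [S.pr e]).take J')).length := by
    rw [length_it, htake]
  have hAr2 : S.Ar f e := by
    refine ⟨hpf.symm, l + K, (it S.h l ((it S.h K [S.pr e]).take J')).length + v,
      (it S.h l ((it S.h K [S.pr e]).take J')).length + (it S.h l [S.pr e]).length, by omega, ?_, ?_, ?_⟩
    · refine ⟨x, ?_, hxs⟩
      have hbf : (it S.h K [S.pr f])[J']? = some (S.pr f) := by
        rw [hpf]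
        exact hbK
      have h1 := tt1_get S hfK hbf (J := v) (k := l) (by rw [hpf]; exact hvn)
      rw [hpf] at h1
      rw [h1]
      exact hx
    · obtain ⟨y0, V0, hy0, hy0s⟩ := st_it S hg l
      refine ⟨y0, ?_, hy0s⟩
      have e1 : it S.hh (l + K) [e] = it S.hh l A ++ (it S.hh l [e] ++ (y0 :: (V0 ++ it S.hh l B))) := by
        rw [it_add, hAB]
        have e2 : A ++ e :: g :: B = A ++ ([e] ++ ([g] ++ B)) := by simp
        rw [e2, it_append, it_append, it_append, hy0]
        rfl
      rw [e1, ← hp1, List.getElem?_append_right (by omega), Nat.add_sub_cancel_left,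
        List.getElem?_append_right (by rw [tr2_len S rfl l]), tr2_len S rfl l, Nat.sub_self]
      rfl
    · refine ⟨z1 ++ z2, ?_⟩
      have e1 : it S.h (l + K) [S.pr e] = it S.h l (A.map S.pr) ++ (it S.h l [S.pr e] ++
          it S.h l (S.pr g :: B.map S.pr)) := by
        rw [it_add, hmap]
        have e2 : A.map S.pr ++ S.pr e :: S.pr g :: B.map S.pr
            = A.map S.pr ++ ([S.pr e] ++ (S.pr g :: B.map S.pr)) := by simp
        rw [e2, it_append, it_append]
      rw [hpf, e1, htake, ← List.drop_drop, List.drop_left, List.drop_append_of_le_length hvn.le, hz.symm]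
      have e3 : (it S.h l (A.map S.pr)).length + (it S.h l [S.pr e]).length
          - ((it S.h l (A.map S.pr)).length + v) = ((it S.h l [S.pr e]).drop v).length := by
        rw [List.length_drop]
        omega
      rw [e3, List.take_left]
  have hfe : S.Eqn f e := Ar.eqn S hI hfI heI hAr2
  exact Eqn.trans S (Eqn.symm S hfe) (Eqn.symm S hef)

end D0L.TN
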