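import Pool.Agent.H.MP_374efc_lc.Pn.Tu1b
import Pool.Agent.H.MP_374efc_lc.Pn.Tu2b

/-!
# MP_374efc_lc, P1: successors are unique up to equivalence

Paper proof: /team-store/h22_374efc_P1.md
-/

set_option autoImplicit false

namespace D0L.TN

variable {α P T : Type} [Fintype P] [Nonempty α] [Fintype T] (S : TN α P T)

omit [Fintype P] [Nonempty α] [Fintype T] in
theorem tu3a_adj {x : P} {k J : ℕ} {e f : P} (h1 : (it S.hh k [x])[J]? = some e)
    (h2 : (it S.hh k [x])[J + 1]? = some f) : S.Adj e f := by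
  obtain ⟨h3, h4⟩ := List.getElem?_eq_some_iff.1 h1
  obtain ⟨h5, h6⟩ := List.getElem?_eq_some_iff.1 h2
  refine ⟨x, k, (it S.hh k [x]).take J, (it S.hh k [x]).drop (J + 1 + 1), ?_⟩
  conv_lhs => rw [← List.take_append_drop J (it S.hh k [x])]
  rw [List.drop_eq_getElem_cons h3, List.drop_eq_getElem_cons h5, h4, h6]

omit [Fintype P] [Nonempty α] [Fintype T] in
theorem tu3a_some {x : P} {c : α} (hx : S.pr x = c) {k J : ℕ} {a : α}
    (ha : (it S.h k [c])[J]? = some a) : ∃ e, (it S.hh k [x])[J]? = some e ∧ S.pr e = a := by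
  have h1 : it S.h k [c] = (it S.hh k [x]).map S.pr := by
    rw [S.map_it, List.map_cons, List.map_nil, hx]
  rw [h1, List.getElem?_map] at ha
  obtain ⟨e, he, h2⟩ := Option.map_eq_some_iff.1 ha
  exact ⟨e, he, h2⟩

/-- Proof: as `adj_exists_right` in Fr/Tt3.lean (with `MI.class` of Eq2). -/
theorem adj_exists_right [Fintype α] {a b : α} (hab : Legal S.h [a, b]) {e : P} (he : S.pr e = a) :
    ∃ e' f', S.Adj e' f' ∧ S.Eqn e e' ∧ S.pr f' = b := by
  obtain ⟨c, k, A, B, hc⟩ := hab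
  obtain ⟨I, hI⟩ := MI.exists S c
  have ha : (it S.h k [c])[A.length]? = some a := by
    rw [← hc, List.append_assoc, List.getElem?_append_right le_rfl, Nat.sub_self]
    rfl
  have hb : (it S.h k [c])[A.length + 1]? = some b := by
    rw [← hc, List.append_assoc, List.getElem?_append_right (by omega), Nat.add_sub_cancel_left]
    rfl
  obtain ⟨I', hI', h1, -, -⟩ := MI.push S hI ha
  obtain ⟨f, hf, hfe⟩ := MI.class S hI' he
  obtain ⟨x, hx, hxf⟩ := h1 f hf
  obtain ⟨f', hf', hp⟩ := S.tu3a_some (MI.pr_eq S hI hx) hb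
  exact ⟨f, f', S.tu3a_adj hxf hf', hfe, hp⟩

theorem adj_exists_left [Fintype α] {a b : α} (hab : Legal S.h [a, b]) {f : P} (hf : S.pr f = b) :
    ∃ e' f', S.Adj e' f' ∧ S.Eqn f f' ∧ S.pr e' = a := by
  obtain ⟨c, k, A, B, hc⟩ := hab
  obtain ⟨I, hI⟩ := MI.exists S c
  have ha : (it S.h k [c])[A.length]? = some a := by
    rw [← hc, List.append_assoc, List.getElem?_append_right le_rfl, Nat.sub_self]
    rfl
  have hb : (it S.h k [c])[A.length + 1]? = some b := by
    rw [← hc, List.append_assoc, List.getElem?_append_right (by omega), Nat.add_sub_cancel_left]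
    rfl
  obtain ⟨I', hI', h1, -, -⟩ := MI.push S hI hb
  obtain ⟨f', hf', hfe⟩ := MI.class S hI' hf
  obtain ⟨x, hx, hxf⟩ := h1 f' hf'
  obtain ⟨e', he', hp⟩ := S.tu3a_some (MI.pr_eq S hI hx) ha
  exact ⟨e', f', S.tu3a_adj he' hxf, hfe, hp⟩

omit [Fintype P] in
/-- Every token is a factor of some `hh^k(g)`. -/
theorem tu3a_word (t : T) : ∃ (g : P) (k : ℕ) (A B : List P), it S.hh k [g] = A ++ S.tk t ++ B := by
  obtain ⟨g, _⟩ := S.sur (Classical.arbitrary α)
  obtain ⟨L, hL⟩ := S.long_full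
  obtain ⟨K, hK⟩ := S.grow L
  have h1 : L ≤ (it S.hh K [g]).length := by
    rw [S.length_it, List.map_cons, List.map_nil]
    exact hK K le_rfl _
  obtain ⟨t', ht'⟩ := hL _ (S.tile_it K g) h1
  obtain ⟨s1, s2, hs⟩ := ht'
  obtain ⟨q', hq'⟩ := S.irr t' t
  obtain ⟨u1, u2, hu⟩ := List.append_of_mem hq'
  have e1 : it S.hh q' (S.tk t') = app S.tk u1 ++ (S.tk t ++ app S.tk u2) := by
    have e2 : S.tk t' = app S.tk [t'] := (app_singleton _ _).symm
    rw [e2, S.it_tk, hu, app_append, app_cons]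
  refine ⟨g, q' + K, it S.hh q' s1 ++ app S.tk u1, app S.tk u2 ++ it S.hh q' s2, ?_⟩
  rw [it_add, ← hs, it_append, it_append, e1]
  simp only [List.append_assoc]

omit [Fintype P] [Nonempty α] [Fintype T] in
theorem tu3a_pair {z : List T} {x y : P} : ∀ {s e : List P}, s ++ x :: y :: e = app S.tk z →
    (∃ t A B, S.tk t = A ++ x :: y :: B) ∨ (S.En x ∧ S.St y) := by
  induction z with
  | nil =>
    intro s e h
    rw [app_nil] at h
    have h1 := congrArg List.length h
    simp at h1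
  | cons t z ih =>
    intro s e h
    rw [app_cons] at h
    rcases List.append_eq_append_iff.1 h.symm with ⟨A', h1, h2⟩ | ⟨C, h1, h2⟩
    · exact ih h2.symm
    · rcases C with _ | ⟨c, _ | ⟨c', C⟩⟩
      · exact ih (s := []) h2
      · have h3 : x = c ∧ y :: e = app S.tk z := by simpa using h2
        obtain ⟨rfl, h4⟩ := h3
        exact Or.inr ⟨⟨t, s, h1⟩, S.tu2a_first h4.symm⟩
      · have h3 : x = c ∧ y = c' ∧ e = C ++ app S.tk z := by simpa using h2
        obtain ⟨rfl, rfl, _⟩ := h3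
        exact Or.inl ⟨t, s, C, h1⟩

/-- A pair of neighbours in a tile word is inside a token (so its letters are legal: every token occurs in some `hh^k(g)`, see `tt4_word`, `adj_tk` in Fr/Tt4.lean) or it is a
junction of two tokens. -/
theorem tile_pair {x y : P} (h1 : S.Tile [x, y]) :
    Legal S.h [S.pr x, S.pr y] ∨ (S.En x ∧ S.St y) := by
  obtain ⟨z, s, e, hz⟩ := h1
  rcases S.tu3a_pair (z := z) (x := x) (y := y) (s := s) (e := e) (by rw [← hz]; simp) with
    ⟨t, A, B, ht⟩ | h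
  · left
    obtain ⟨g, k, A', B', hg⟩ := S.tu3a_word t
    refine ⟨S.pr g, k, (A' ++ A).map S.pr, (B ++ B').map S.pr, ?_⟩
    have h2 := S.map_it k [g]
    rw [hg, ht] at h2
    rw [show [S.pr g] = [g].map S.pr from rfl, ← h2]
    simp
  · exact Or.inr h

end D0L.TN
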