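import Pool.Agent.H.MP_374efc_lc.Pn.Tu3a

/-!
# MP_374efc_lc, P1: successors are unique up to equivalence

Paper proof: /team-store/h22_374efc_P1.md
-/

set_option autoImplicit false

namespace D0L.TN

variable {α P T : Type} [Fintype P] [Nonempty α] [Fintype T] (S : TN α P T)

/-- Proof: `x, y` and `x', y'` tile pairs with `Eqn e x`, `Eqn f y`, `Eqn e' x'`, `Eqn f' y'`; same letters.  If the pair of letters is legal: `adj_exists_right` for `e` gives `Adj e1 f1`,
`Eqn e e1`, and `tau_right` twice: `Eqn f1 y`, `Eqn f1 y'`.  Otherwise `y`, `y'` are token starts (`tile_pair`) over the same letter: `st_eqn`. -/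
theorem nx_right [Fintype α] {e f e' f' : P} (h1 : S.Nx e f) (h2 : S.Nx e' f')
    (he : S.Eqn e e') (hp : S.pr f' = S.pr f) : S.Eqn f f' := by
  obtain ⟨x, y, ht, hx, hy⟩ := h1
  obtain ⟨x', y', ht', hx', hy'⟩ := h2
  have hpx : S.pr x = S.pr e := hx.1
  have hpy : S.pr y = S.pr f := hy.1
  have hpx' : S.pr x' = S.pr x := hx'.1.trans (he.1.trans hpx.symm)
  have hpy' : S.pr y' = S.pr y := hy'.1.trans (hp.trans hpy.symm)
  by_cases hl : Legal S.h [S.pr x, S.pr y]
  · obtain ⟨e1, f1, ha, he1, hf1⟩ := S.adj_exists_right hl hpx.symm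
    have he1' := Eqn.symm S he1
    have k1 : S.Eqn f1 y := S.tau_right ha ht hf1.symm (Eqn.trans S he1' hx)
    have k2 : S.Eqn f1 y' := S.tau_right ha ht' (hpy'.trans hf1.symm)
      (Eqn.trans S he1' (Eqn.trans S he hx'))
    exact Eqn.trans S hy (Eqn.trans S (Eqn.symm S k1) (Eqn.trans S k2 (Eqn.symm S hy')))
  · have h3 := (S.tile_pair ht).resolve_left hl
    have h4 := (S.tile_pair ht').resolve_left (by rw [hpx', hpy']; exact hl)
    exact Eqn.trans S hy (Eqn.trans S (S.st_eqn hpy' h3.2 h4.2) (Eqn.symm S hy'))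

theorem nx_left [Fintype α] {e f e' f' : P} (h1 : S.Nx e f) (h2 : S.Nx e' f')
    (hf : S.Eqn f f') (hp : S.pr e' = S.pr e) : S.Eqn e e' := by
  obtain ⟨x, y, ht, hx, hy⟩ := h1
  obtain ⟨x', y', ht', hx', hy'⟩ := h2
  have hpx : S.pr x = S.pr e := hx.1
  have hpy : S.pr y = S.pr f := hy.1
  have hpy' : S.pr y' = S.pr y := hy'.1.trans (hf.1.trans hpy.symm)
  have hpx' : S.pr x' = S.pr x := hx'.1.trans (hp.trans hpx.symm)
  by_cases hl : Legal S.h [S.pr x, S.pr y]
  · obtain ⟨e1, f1, ha, hf1, he1⟩ := S.adj_exists_left hl hpy.symm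
    have hf1' := Eqn.symm S hf1
    have k1 : S.Eqn e1 x := S.tau_left ha ht he1.symm (Eqn.trans S hf1' hy)
    have k2 : S.Eqn e1 x' := S.tau_left ha ht' (hpx'.trans he1.symm)
      (Eqn.trans S hf1' (Eqn.trans S hf hy'))
    exact Eqn.trans S hx (Eqn.trans S (Eqn.symm S k1) (Eqn.trans S k2 (Eqn.symm S hx')))
  · have h3 := (S.tile_pair ht).resolve_left hl
    have h4 := (S.tile_pair ht').resolve_left (by rw [hpx', hpy']; exact hl)
    exact Eqn.trans S hx (Eqn.trans S (S.en_eqn hpx' h3.1 h4.1) (Eqn.symm S hx'))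

end D0L.TN
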